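import Pool.Agent.H95.RQ.Targets2

set_option autoImplicit false

open NumberField NumberField.InfinitePlace IsDedekindDomain

namespace Pool.Agent.H95.RQ

open Pool.Agent.H28.RC

section

variable {K : Type} [Field K] [NumberField K]

open scoped Classical in
/-- the valuation of an ideal -/
noncomputable def iv (P : HeightOneSpectrum (𝓞 K)) (I : Ideal (𝓞 K)) : WithZero (Multiplicative ℤ) :=
  WithZero.exp (-((Associates.mk P.asIdeal).count (Associates.mk I).factors : ℤ))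

theorem iv_mul (P : HeightOneSpectrum (𝓞 K)) {I J : Ideal (𝓞 K)} (hI : I ≠ ⊥) (hJ : J ≠ ⊥) :
    iv P (I * J) = iv P I * iv P J := by
  classical
  unfold iv
  have h1 : Associates.mk I ≠ 0 := Associates.mk_ne_zero.2 hI
  have h2 : Associates.mk J ≠ 0 := Associates.mk_ne_zero.2 hJ
  rw [← Associates.mk_mul_mk, Associates.count_mul h1 h2 P.associates_irreducible,
    ← WithZero.exp_add]
  congr 1
  push_cast
  ring

theorem iv_one_of (P : HeightOneSpectrum (𝓞 K)) {I : Ideal (𝓞 K)} (hI : I ≠ ⊥)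
    (h : ¬ I ≤ P.asIdeal) : iv P I = 1 := by
  classical
  unfold iv
  have h1 : (Associates.mk P.asIdeal).count (Associates.mk I).factors = 0 := by
    by_contra hc
    exact h (Ideal.dvd_iff_le.1 ((Associates.count_ne_zero_iff_dvd hI P.irreducible).1 hc))
  rw [h1]
  simp

theorem iv_span (P : HeightOneSpectrum (𝓞 K)) {a : 𝓞 K} (ha : a ≠ 0) :
    iv P (Ideal.span {a}) = P.valuation K (a : K) := by
  classical
  unfold iv
  rw [show (a : K) = algebraMap (𝓞 K) K a from rfl, HeightOneSpectrum.valuation_of_algebraMap,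
    P.intValuation_if_neg ha]

/-- `b` represents the ideal `I` outside `T` -/
def Rp (T : Finset (HeightOneSpectrum (𝓞 K))) (I : Ideal (𝓞 K)) (b : Kˣ) : Prop :=
  ∀ P ∉ T, P.valuation K (b : K) = iv P I

theorem rp_mul {T : Finset (HeightOneSpectrum (𝓞 K))} {I J : Ideal (𝓞 K)} {b c : Kˣ}
    (hI : I ≠ ⊥) (hJ : J ≠ ⊥) (h1 : Rp T I b) (h2 : Rp T J c) : Rp T (I * J) (b * c) := by
  intro P hP
  rw [iv_mul P hI hJ, ← h1 P hP, ← h2 P hP, Units.val_mul, map_mul]

theorem rp_of_mul {T : Finset (HeightOneSpectrum (𝓞 K))} {I J : Ideal (𝓞 K)} {a : 𝓞 K}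
    (ha : a ≠ 0) (h : I * J = Ideal.span {a}) (hJ : ∀ P : HeightOneSpectrum (𝓞 K), P ∉ T →
      ¬ J ≤ P.asIdeal) (u : Kˣ) (hu : (u : K) = (a : K)) : Rp T I u := by
  intro P hP
  have h0 : I * J ≠ ⊥ := by rw [h]; simpa using ha
  have hI : I ≠ ⊥ := by rintro rfl; simp at h0
  have hJ0 : J ≠ ⊥ := by rintro rfl; simp at h0
  rw [hu, ← iv_span P ha, ← h, iv_mul P hI hJ0, iv_one_of P hJ0 (hJ P hP), mul_one]

theorem rp_exists {T : Finset (HeightOneSpectrum (𝓞 K))} (hT : CG T) {I : Ideal (𝓞 K)}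
    (hI : I ≠ ⊥) : ∃ b, Rp T I b := by
  obtain ⟨J, a, ha, hJ, h⟩ := hT I hI
  have ha' : (a : K) ≠ 0 := by simpa using ha
  exact ⟨Units.mk0 (a : K) ha', rp_of_mul ha h hJ _ rfl⟩

theorem rp_unique {T : Finset (HeightOneSpectrum (𝓞 K))} {I : Ideal (𝓞 K)} {b c : Kˣ}
    (h1 : Rp T I b) (h2 : Rp T I c) : b / c ∈ UF T := by
  intro P hP
  have h3 : P.valuation K (c : K) ≠ 0 := by simp
  rw [Units.val_div_eq_div_val, map_div₀, h1 P hP, ← h2 P hP, div_self h3]

theorem split_ideal (T : Finset (HeightOneSpectrum (𝓞 K))) (I : Ideal (𝓞 K)) (hI : I ≠ ⊥) :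
    ∃ I' J' : Ideal (𝓞 K), I = I' * J' ∧ (∀ P ∈ T, ¬ I' ≤ P.asIdeal) ∧
      ∀ P : HeightOneSpectrum (𝓞 K), P ∉ T → ¬ J' ≤ P.asIdeal := by
  classical
  induction T using Finset.induction_on with
  | empty =>
    refine ⟨I, ⊤, by rw [Ideal.mul_top], by simp, fun P _ h => P.isPrime.ne_top (top_le_iff.1 h)⟩
  | insert P₀ T hP₀ ih =>
    obtain ⟨I', J', h1, h2, h3⟩ := ih
    have hI' : I' ≠ 0 := by rintro rfl; rw [zero_mul] at h1; exact hI h1
    have hfin : FiniteMultiplicity P₀.asIdeal I' := FiniteMultiplicity.of_prime_left P₀.prime hI'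
    obtain ⟨I'', h4, h5⟩ := hfin.exists_eq_pow_mul_and_not_dvd
    refine ⟨I'', P₀.asIdeal ^ multiplicity P₀.asIdeal I' * J', ?_, ?_, ?_⟩
    · rw [h1]
      nth_rewrite 1 [h4]
      ring
    · intro P hP
      rcases Finset.mem_insert.1 hP with rfl | hP
      · intro h; exact h5 (Ideal.dvd_iff_le.2 h)
      · intro h
        refine h2 P hP (le_trans ?_ h)
        rw [h4]
        exact Ideal.mul_le_right
    · intro P hP h
      rw [Finset.mem_insert, not_or] at hP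
      rcases (P.isPrime.mul_le).1 h with h | h
      · have h6 := Ideal.IsPrime.le_of_pow_le h
        have h7 : P₀.asIdeal = P.asIdeal :=
          (P₀.isMaximal.eq_of_le P.isPrime.ne_top h6)
        exact hP.1 (HeightOneSpectrum.ext h7.symm)
      · exact h3 P hP.2 h

end

theorem relNorm_le {F E : Type} [Field F] [NumberField F] [Field E] [NumberField E] [Algebra F E]
    (P : Ideal (𝓞 F)) (hP : P.IsPrime) (hP0 : P ≠ ⊥) (J : Ideal (𝓞 E)) (hJ : J ≠ ⊥) :
    Ideal.relNorm (𝓞 F) J ≤ P → ∃ Q : HeightOneSpectrum (𝓞 E), J ≤ Q.asIdeal ∧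
      Q.asIdeal.under (𝓞 F) = P := by
  induction J using UniqueFactorizationMonoid.induction_on_prime with
  | h₁ => exact absurd rfl hJ
  | h₂ x hx =>
    intro h
    rw [Ideal.isUnit_iff] at hx
    rw [hx, Ideal.relNorm_top, top_le_iff] at h
    exact absurd h hP.ne_top
  | h₃ x p hx hp ih =>
    intro h
    rw [map_mul] at h
    rcases (hP.mul_le).1 h with h | h
    · have hpp : p.IsPrime := Ideal.isPrime_of_prime hp
      have hp0 : p ≠ ⊥ := hp.ne_zero
      let Q : HeightOneSpectrum (𝓞 E) := ⟨p, hpp, hp0⟩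
      refine ⟨Q, Ideal.mul_le_left, ?_⟩
      have : (p.under (𝓞 F)).IsPrime := inferInstance
      have hlo : p.LiesOver (p.under (𝓞 F)) := ⟨rfl⟩
      obtain ⟨s, hs⟩ := Ideal.exists_relNorm_eq_pow_of_isPrime p (p.under (𝓞 F))
      rw [hs] at h
      have h1 : p.under (𝓞 F) ≤ P := Ideal.IsPrime.le_of_pow_le h
      have h2 : p.under (𝓞 F) ≠ ⊥ := by
        intro h3
        have : p.LiesOver (⊥ : Ideal (𝓞 F)) := ⟨h3.symm⟩
        exact hp0 (Ideal.eq_bot_of_liesOver_bot (𝓞 F) p)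
      have h3 : (p.under (𝓞 F)).IsMaximal := Ring.DimensionLEOne.maximalOfPrime h2 inferInstance
      exact h3.eq_of_le hP.ne_top h1
    · obtain ⟨Q, h1, h2⟩ := ih hx h
      exact ⟨Q, le_trans Ideal.mul_le_right h1, h2⟩

theorem pf_FSX : T_FSX := by
  intro F E _ _ _ _ _ _ T k m hCG hCGE hm
  classical
  have hmT : ∀ P ∈ T, m ≤ P.asIdeal ^ (k + 1) := by
    intro P hP
    rw [hm]
    exact Ideal.dvd_iff_le.1 (Finset.dvd_prod_of_mem (fun P : HeightOneSpectrum (𝓞 F) =>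
      P.asIdeal ^ (k + 1)) hP)
  have hIM : ∀ I : Ideal (𝓞 F), I ∈ IM m ↔ I ≠ ⊥ ∧ ∀ P ∈ T, ¬ I ≤ P.asIdeal := by
    intro I
    constructor
    · rintro ⟨h1, h2⟩
      refine ⟨h1, fun P hP h3 => ?_⟩
      have h4 : I ⊔ m ≤ P.asIdeal := sup_le h3 ((hmT P hP).trans (Ideal.pow_le_self (by omega)))
      rw [h2, top_le_iff] at h4
      exact P.isPrime.ne_top h4
    · rintro ⟨h1, h2⟩
      refine ⟨h1, ?_⟩
      rw [← Ideal.isCoprime_iff_sup_eq, hm]
      refine IsCoprime.prod_right fun P hP => IsCoprime.pow_right ?_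
      rw [Ideal.isCoprime_iff_sup_eq]
      have h3 : P.asIdeal.IsMaximal := P.isMaximal
      by_contra h4
      have h5 := h3.eq_of_le h4 le_sup_right
      exact h2 P hP (h5 ▸ le_sup_left)
  have hch : ∀ I : IM m, ∃ b, Rp T (I : Ideal (𝓞 F)) b := fun I => rp_exists hCG I.2.1
  choose β hβ using hch
  have key : ∀ (κ : {κ : Fˣ →* ℂˣ // ∀ x ∈ UF T ⊔ NN F E ⊔ UT T k, κ x = 1}) (I : IM m) (b : Fˣ),
      Rp T (I : Ideal (𝓞 F)) b → κ.1 (β I) = κ.1 b := by
    intro κ I b hb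
    have h1 : β I / b ∈ UF T := rp_unique (hβ I) hb
    have h2 : κ.1 (β I / b) = 1 := κ.2 _ (Subgroup.mem_sup_left (Subgroup.mem_sup_left h1))
    rw [map_div, div_eq_one] at h2
    exact h2
  let Θ : {κ : Fˣ →* ℂˣ // ∀ x ∈ UF T ⊔ NN F E ⊔ UT T k, κ x = 1} → (IM m →* ℂˣ) := fun κ =>
    { toFun := fun I => κ.1 (β I)
      map_one' := by
        have h1 : Rp T ((1 : IM m) : Ideal (𝓞 F)) 1 := by
          intro P _
          rw [show ((1 : IM m) : Ideal (𝓞 F)) = ⊤ from Ideal.one_eq_top, iv_one_of P top_ne_bot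
            (fun h => P.isPrime.ne_top (top_le_iff.1 h))]
          simp
        rw [key κ 1 1 h1, map_one]
      map_mul' := by
        intro I J
        rw [key κ (I * J) (β I * β J) (rp_mul I.2.1 J.2.1 (hβ I) (hβ J)), map_mul] }
  have hΘ : ∀ κ I, Θ κ I = κ.1 (β I) := fun _ _ => rfl
  refine ⟨Θ, ?_, fun κ => ⟨?_, ?_⟩⟩
  · -- injectivity
    intro κ κ' h
    have h1 : ∀ a : 𝓞 F, a ≠ 0 → ∀ u : Fˣ, (u : F) = (a : F) → κ.1 u = κ'.1 u := by
      intro a ha u hu
      have ha' : Ideal.span {a} ≠ (⊥ : Ideal (𝓞 F)) := by simpa using ha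
      obtain ⟨I', J', h2, h3, h4⟩ := split_ideal T (Ideal.span {a}) ha'
      have hI0 : I' ≠ ⊥ := by rintro rfl; rw [Ideal.bot_mul] at h2; exact ha' h2
      have hI : I' ∈ IM m := (hIM I').2 ⟨hI0, h3⟩
      have hr : Rp T I' u := rp_of_mul ha h2.symm h4 u hu
      have h5 := DFunLike.congr_fun h (⟨I', hI⟩ : IM m)
      rw [hΘ, hΘ, key κ ⟨I', hI⟩ u hr, key κ' ⟨I', hI⟩ u hr] at h5
      exact h5
    refine Subtype.ext (MonoidHom.ext fun x => ?_)
    obtain ⟨a, s, hs, hx⟩ := IsFractionRing.div_surjective (A := 𝓞 F) (x : F)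
    have hs0 : s ≠ 0 := nonZeroDivisors.ne_zero hs
    have hs' : (s : F) ≠ 0 := by simpa using hs0
    have ha0 : a ≠ 0 := by
      rintro rfl
      rw [map_zero, zero_div] at hx
      exact x.ne_zero hx.symm
    have ha' : (a : F) ≠ 0 := by simpa using ha0
    have hxe : x = Units.mk0 (a : F) ha' / Units.mk0 (s : F) hs' := by
      ext
      rw [Units.val_div_eq_div_val, Units.val_mk0, Units.val_mk0]
      exact hx.symm
    rw [hxe, map_div, map_div, h1 a ha0 _ rfl, h1 s hs0 _ rfl]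
  · -- ray
    intro a h ha hpos
    have ha0 : a ≠ 0 := by
      rintro rfl
      exact h.1 (by simp)
    have ha' : (a : F) ≠ 0 := by simpa using ha0
    have hr : Rp T (Ideal.span {a}) (Units.mk0 (a : F) ha') := by
      intro P _
      rw [iv_span P ha0, Units.val_mk0]
    rw [hΘ, key κ ⟨_, h⟩ _ hr]
    refine κ.2 _ (Subgroup.mem_sup_right ?_)
    refine Subgroup.mem_inf.2 ⟨?_, ?_⟩
    · rw [Subgroup.mem_iInf]
      intro P
      rw [Subgroup.mem_iInf]
      intro hP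
      show P.valuation F (((Units.mk0 (a : F) ha' : Fˣ) : F) - 1) ≤ WithZero.exp (-(k + 1 : ℤ))
      rw [Units.val_mk0, show (a : F) - 1 = algebraMap (𝓞 F) F (a - 1) by simp,
        HeightOneSpectrum.valuation_of_algebraMap]
      have h1 := (P.intValuation_le_pow_iff_mem (a - 1) (k + 1)).2 (hmT P hP ha)
      exact_mod_cast h1
    · intro v _
      exact hpos v
  · -- norms
    intro J h
    have hJ0 : J ≠ ⊥ := by
      rintro rfl
      exact h.1 (Ideal.relNorm_bot _)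
    obtain ⟨J', b, hb, hJ', hbe⟩ := hCGE J hJ0
    have hJ'0 : J' ≠ ⊥ := by
      rintro rfl
      rw [Ideal.mul_bot] at hbe
      exact hb (by simpa using hbe.symm)
    have hn : Ideal.relNorm (𝓞 F) J * Ideal.relNorm (𝓞 F) J' =
        Ideal.span {Algebra.intNorm (𝓞 F) (𝓞 E) b} := by
      rw [← map_mul, hbe, Ideal.relNorm_singleton]
    have hn0 : Algebra.intNorm (𝓞 F) (𝓞 E) b ≠ 0 := by
      rw [Ne, Algebra.intNorm_eq_zero]
      exact hb
    have hb' : (b : E) ≠ 0 := by simpa using hb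
    have hcoe : ((Algebra.intNorm (𝓞 F) (𝓞 E) b : 𝓞 F) : F) = Algebra.norm F (b : E) :=
      Algebra.algebraMap_intNorm (A := 𝓞 F) (K := F) (L := E) (B := 𝓞 E) b
    let u : Fˣ := Units.map (Algebra.norm F : E →* F) (Units.mk0 (b : E) hb')
    have hu : (u : F) = ((Algebra.intNorm (𝓞 F) (𝓞 E) b : 𝓞 F) : F) := by
      rw [hcoe]
      rfl
    have hr : Rp T (Ideal.relNorm (𝓞 F) J) u := by
      refine rp_of_mul hn0 hn ?_ u hu
      intro P hP hle
      obtain ⟨Q, h1, h2⟩ := relNorm_le P.asIdeal P.isPrime P.ne_bot J' hJ'0 hle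
      refine hJ' Q ?_ h1
      rintro ⟨P', hP', h3⟩
      rw [h2] at h3
      exact hP ((HeightOneSpectrum.ext h3) ▸ hP')
    rw [hΘ, key κ ⟨_, h⟩ u hr]
    exact κ.2 _ (Subgroup.mem_sup_left (Subgroup.mem_sup_right ⟨_, rfl⟩))

end Pool.Agent.H95.RQ
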