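import Pool.Agent.H95.RQ.Targets2

set_option autoImplicit false

open NumberField NumberField.InfinitePlace IsDedekindDomain

namespace Pool.Agent.H95.RQ

open Pool.Agent.H28.RC

theorem wap_gen {A ι : Type} [CommGroup A] [Fintype ι] (C : ι → Subgroup A)
    (h : ∀ g : ι → A, ∃ f, ∀ i, f / g i ∈ C i) :
    (⨅ i, C i).index = ∏ i, (C i).index := by
  classical
  let φ : A →* (∀ i, A ⧸ C i) := MonoidHom.pi fun i => QuotientGroup.mk' (C i)
  have hφ : ∀ x i, φ x i = QuotientGroup.mk x := fun _ _ => rfl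
  have hk : φ.ker = ⨅ i, C i := by
    ext x
    rw [MonoidHom.mem_ker, Subgroup.mem_iInf, funext_iff]
    exact forall_congr' fun i => by
      rw [hφ, Pi.one_apply, QuotientGroup.eq_one_iff]
  have hs : Function.Surjective φ := by
    intro y
    obtain ⟨f, hf⟩ := h fun i => (y i).out
    refine ⟨f, funext fun i => ?_⟩
    have h1 : (QuotientGroup.mk (s := C i) f) = QuotientGroup.mk (y i).out := by
      rw [QuotientGroup.eq_iff_div_mem]
      exact hf i
    rw [hφ, h1]
    exact Quotient.out_eq _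
  rw [← hk, Subgroup.index_ker, MonoidHom.range_eq_top.2 hs]
  rw [Nat.card_congr (Subgroup.topEquiv (G := ∀ i, A ⧸ C i)).toEquiv, Nat.card_pi]
  rfl

theorem wap_sign {K : Type} [Field K] [NumberField K] (v : RP K) :
    (PosR ({v} : Set (RP K))).index = 2 := by
  rw [Subgroup.index_eq_two_iff]
  refine ⟨-1, fun b => ?_⟩
  have h0 : re v (b : K) ≠ 0 := by
    unfold re
    rw [Ne, map_eq_zero]
    exact b.ne_zero
  have h1 : ∀ x : Kˣ, x ∈ PosR ({v} : Set (RP K)) ↔ 0 < re v (x : K) := by
    intro x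
    constructor
    · intro h
      exact h v rfl
    · rintro h w hw
      rw [Set.mem_singleton_iff] at hw
      rw [hw]
      exact h
  rw [h1, h1]
  have h2 : re v ((b * -1 : Kˣ) : K) = - re v (b : K) := by
    unfold re
    push_cast
    rw [mul_neg, mul_one, map_neg]
  rw [h2]
  rcases lt_or_gt_of_ne h0 with h | h
  · left
    exact ⟨by linarith, by linarith⟩
  · right
    exact ⟨h, by linarith⟩

theorem pf_WAP (h_WAS : T_WAS) : T_WAP := by
  intro K _ _ T k B R hU hB
  classical
  have : Fintype R := Fintype.ofFinite R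
  let C : (T ⊕ R) → Subgroup Kˣ := fun i => match i with
    | Sum.inl P => B P.1
    | Sum.inr v => PosR ({v.1} : Set (RP K))
  have h1 : ∀ g : (T ⊕ R) → Kˣ, ∃ f, ∀ i, f / g i ∈ C i := by
    intro g
    obtain ⟨f, hf1, hf2, hf3⟩ := h_WAS K T k
      (fun P => if h : P ∈ T then g (Sum.inl ⟨P, h⟩) else 1)
      {v | ∃ h : v ∈ R, re v (g (Sum.inr ⟨v, h⟩) : K) < 0}
    refine ⟨f, ?_⟩
    rintro (P | v)
    · have := hU P.1 P.2 (hf1 P.1 P.2)
      rw [dif_pos P.2] at this
      exact this
    · have h0 : re v.1 (g (Sum.inr v) : K) ≠ 0 := by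
        unfold re
        rw [Ne, map_eq_zero]
        exact (g (Sum.inr v)).ne_zero
      show f / g (Sum.inr v) ∈ PosR ({v.1} : Set (RP K))
      intro w hw
      rw [Set.mem_singleton_iff] at hw
      subst hw
      have h2 : re v.1 ((f / g (Sum.inr v) : Kˣ) : K) =
          re v.1 (f : K) / re v.1 (g (Sum.inr v) : K) := by
        unfold re
        rw [Units.val_div_eq_div_val, map_div₀]
      rw [h2]
      by_cases h : re v.1 (g (Sum.inr v) : K) < 0
      · exact div_pos_of_neg_of_neg (hf2 v.1 ⟨v.2, h⟩) h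
      · exact div_pos (hf3 v.1 (by rintro ⟨_, h'⟩; exact h h'))
          (lt_of_le_of_ne (not_lt.1 h) (Ne.symm h0))
  have h2 := wap_gen C h1
  have h3 : (⨅ i, C i) = (⨅ P ∈ T, B P) ⊓ PosR R := by
    ext x
    simp only [Subgroup.mem_iInf, Subgroup.mem_inf]
    constructor
    · intro h
      refine ⟨fun P hP => h (Sum.inl ⟨P, hP⟩), fun v hv => h (Sum.inr ⟨v, hv⟩) v rfl⟩
    · rintro ⟨ha, hb⟩ (P | v)
      · exact ha P.1 P.2
      · intro w hw
        rw [Set.mem_singleton_iff] at hw
        rw [hw]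
        exact hb v.1 v.2
  rw [← h3, h2, Fintype.prod_sum_type]
  congr 1
  · exact Finset.prod_coe_sort T (fun P => (B P).index)
  · have h4 : ∀ v : R, (C (Sum.inr v)).index = 2 := fun v => wap_sign v.1
    rw [Finset.prod_congr rfl fun v _ => h4 v, Finset.prod_const, Finset.card_univ,
      Nat.card_eq_fintype_card]

end Pool.Agent.H95.RQ
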