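import Pool.Agent.H11.RQ.UFI
import Pool.Agent.H13.RQ.UFE
import Pool.Agent.H14.RQ.PCX
import Pool.Agent.H14.RQ.RCG
import Pool.Agent.H15.RC.FR2
import Pool.Agent.H19.RQ.EXT
import Pool.Agent.H19.RQ.NMN
import Pool.Agent.H19.RQ.SUN
import Pool.Agent.H19.RQ.VAL
import Pool.Agent.H23.RQ.BAN
import Pool.Agent.H3.RQ.UNI
import Pool.Agent.H31.RQ.GLO
import Pool.Agent.H31.RQ.VH0
import Pool.Agent.H33.RQ.BRF
import Pool.Agent.H33.RQ.RED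
import Pool.Agent.H34.RQ.PRJ
import Pool.Agent.H35.RQ.PCM
import Pool.Agent.H42.RQ.LAM
import Pool.Agent.H50.RQ.VCT
import Pool.Agent.H51.RQ.MON
import Pool.Agent.H52.RC.FR1
import Pool.Agent.H54.RQ.HQI
import Pool.Agent.H56.RQ.DUA
import Pool.Agent.H59.RQ.FIB
import Pool.Agent.H59.RQ.ORD
import Pool.Agent.H61.RQ.QCH
import Pool.Agent.H62.RC.FRE
import Pool.Agent.H65.RQ.H1S
import Pool.Agent.H65.RQ.LAV
import Pool.Agent.H65.RQ.WAS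
import Pool.Agent.H67.RC.SGN
import Pool.Agent.H69.RQ.FUP
import Pool.Agent.H69.RQ.HQM
import Pool.Agent.H69.RQ.LOC
import Pool.Agent.H71.RQ.HQP
import Pool.Agent.H71.RQ.TRP
import Pool.Agent.H74.RQ.EQS
import Pool.Agent.H74.RQ.FST
import Pool.Agent.H74.RQ.NPO
import Pool.Agent.H74.RQ.VQH
import Pool.Agent.H85.RQ.CLI
import Pool.Agent.H85.RQ.FIX
import Pool.Agent.H85.RQ.TRA
import Pool.Agent.H85.RQ.VSG
import Pool.Agent.H86.RQ.HSU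
import Pool.Agent.H86.RQ.PIW
import Pool.Agent.H87.RQ.UPF
import Pool.Agent.H89.RQ.HQX
import Pool.Agent.H91.RQ.SOL
import Pool.Agent.H91.RQ.SSP
import Pool.Agent.H92.RQ.HQQ
import Pool.Agent.H92.RQ.URX
import Pool.Agent.H95.RQ.FSX
import Pool.Agent.H95.RQ.WAP
import Pool.Agent.H99.RQ.SYL

/-!
# MP_347b49_nt, part 3: assembly of the modules of the board rq_modules
-/

set_option autoImplicit false

namespace Pool.Agent.H95.RQ.Asm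

open Pool.Agent.H95.RQ

theorem all :
    Pool.Agent.H28.RC.T_FIQ ∧ Pool.Agent.H28.RC.T_BRA := by
  have hSGN : Pool.Agent.H28.RC.T_SGN := Pool.Agent.H67.RC.pf_SGN
  have hFRE : Pool.Agent.H28.RC.T_FRE := Pool.Agent.H62.RC.pf_FRE
  have hFR1 : Pool.Agent.H28.RC.T_FR1 := Pool.Agent.H52.RC.pf_FR1 hFRE
  have hFR2 : Pool.Agent.H28.RC.T_FR2 := Pool.Agent.H15.RC.pf_FR2 hFRE hFR1
  have hBAN : Pool.Agent.H95.RQ.T_BAN := Pool.Agent.H23.RQ.pf_BAN 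
  have hCLI : Pool.Agent.H95.RQ.T_CLI := Pool.Agent.H85.RQ.pf_CLI 
  have hDUA : Pool.Agent.H95.RQ.T_DUA := Pool.Agent.H56.RQ.pf_DUA 
  have hEQS : Pool.Agent.H95.RQ.T_EQS := Pool.Agent.H74.RQ.pf_EQS 
  have hEXT : Pool.Agent.H95.RQ.T_EXT := Pool.Agent.H19.RQ.pf_EXT 
  have hFSX : Pool.Agent.H95.RQ.T_FSX := Pool.Agent.H95.RQ.pf_FSX 
  have hFUP : Pool.Agent.H95.RQ.T_FUP := Pool.Agent.H69.RQ.pf_FUP 
  have hHQI : Pool.Agent.H95.RQ.T_HQI := Pool.Agent.H54.RQ.pf_HQI 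
  have hHQM : Pool.Agent.H95.RQ.T_HQM := Pool.Agent.H69.RQ.pf_HQM 
  have hHQP : Pool.Agent.H95.RQ.T_HQP := Pool.Agent.H71.RQ.pf_HQP 
  have hHQQ : Pool.Agent.H95.RQ.T_HQQ := Pool.Agent.H92.RQ.pf_HQQ hHQI hHQM
  have hHQX : Pool.Agent.H95.RQ.T_HQX := Pool.Agent.H89.RQ.pf_HQX 
  have hLAM : Pool.Agent.H95.RQ.T_LAM := Pool.Agent.H42.RQ.pf_LAM 
  have hNMN : Pool.Agent.H95.RQ.T_NMN := Pool.Agent.H19.RQ.pf_NMN 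
  have hNPO : Pool.Agent.H95.RQ.T_NPO := Pool.Agent.H74.RQ.pf_NPO 
  have hORD : Pool.Agent.H95.RQ.T_ORD := Pool.Agent.H59.RQ.pf_ORD 
  have hPCM : Pool.Agent.H95.RQ.T_PCM := Pool.Agent.H35.RQ.pf_PCM 
  have hPRJ : Pool.Agent.H95.RQ.T_PRJ := Pool.Agent.H34.RQ.pf_PRJ 
  have hQCH : Pool.Agent.H95.RQ.T_QCH := Pool.Agent.H61.RQ.pf_QCH hORD
  have hRCG : Pool.Agent.H95.RQ.T_RCG := Pool.Agent.H14.RQ.pf_RCG 
  have hRED : Pool.Agent.H95.RQ.T_RED := Pool.Agent.H33.RQ.pf_RED 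
  have hSSP : Pool.Agent.H95.RQ.T_SSP := Pool.Agent.H91.RQ.pf_SSP 
  have hSYL : Pool.Agent.H95.RQ.T_SYL := Pool.Agent.H99.RQ.pf_SYL 
  have hTRA : Pool.Agent.H95.RQ.T_TRA := Pool.Agent.H85.RQ.pf_TRA 
  have hTRP : Pool.Agent.H95.RQ.T_TRP := Pool.Agent.H71.RQ.pf_TRP 
  have hUFI : Pool.Agent.H95.RQ.T_UFI := Pool.Agent.H11.RQ.pf_UFI 
  have hUIN : Pool.Agent.H95.RQ.T_UIN := Pool.Agent.H3.RQ.pf_UIN 
  have hUNI : Pool.Agent.H95.RQ.T_UNI := Pool.Agent.H3.RQ.pf_UNI hEQS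
  have hURX : Pool.Agent.H95.RQ.T_URX := Pool.Agent.H92.RQ.pf_URX 
  have hVAL : Pool.Agent.H95.RQ.T_VAL := Pool.Agent.H19.RQ.pf_VAL 
  have hVSG : Pool.Agent.H95.RQ.T_VSG := Pool.Agent.H85.RQ.pf_VSG hLAM hNMN
  have hWAS : Pool.Agent.H95.RQ.T_WAS := Pool.Agent.H65.RQ.pf_WAS hSGN
  have hFIX : Pool.Agent.H95.RQ.T_FIX := Pool.Agent.H85.RQ.pf_FIX hFUP hWAS
  have hH1S : Pool.Agent.H95.RQ.T_H1S := Pool.Agent.H65.RQ.pf_H1S hNMN hVAL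
  have hLAV : Pool.Agent.H95.RQ.T_LAV := Pool.Agent.H65.RQ.pf_LAV hLAM hTRP hVAL
  have hMON : Pool.Agent.H95.RQ.T_MON := Pool.Agent.H51.RQ.pf_MON hTRA hCLI hRED hSSP
  have hPCX : Pool.Agent.H95.RQ.T_PCX := Pool.Agent.H14.RQ.pf_PCX hRCG
  have hPIW : Pool.Agent.H95.RQ.T_PIW := Pool.Agent.H86.RQ.pf_PIW hEQS hVAL
  have hSOL : Pool.Agent.H95.RQ.T_SOL := Pool.Agent.H91.RQ.pf_SOL hSSP hBAN hPCM hSYL
  have hSUN : Pool.Agent.H95.RQ.T_SUN := Pool.Agent.H19.RQ.pf_SUN hVAL hUNI hUIN hUFI hPIW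
  have hUFE : Pool.Agent.H95.RQ.T_UFE := Pool.Agent.H13.RQ.pf_UFE hNMN hVAL
  have hUPF : Pool.Agent.H95.RQ.T_UPF := Pool.Agent.H87.RQ.pf_UPF hLAV hVSG hFUP hVAL
  have hVCT : Pool.Agent.H95.RQ.T_VCT := Pool.Agent.H50.RQ.pf_VCT hLAM hVSG hNMN
  have hVH0 : Pool.Agent.H95.RQ.T_VH0 := Pool.Agent.H31.RQ.pf_VH0 hLAM hVSG hVCT hNMN
  have hVQH : Pool.Agent.H95.RQ.T_VQH := Pool.Agent.H74.RQ.pf_VQH hVAL hNMN hPIW hHQX hHQQ hVSG hLAM hUPF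
  have hWAP : Pool.Agent.H95.RQ.T_WAP := Pool.Agent.H95.RQ.pf_WAP hWAS
  have hBRF : Pool.Agent.H28.RC.T_BRA := Pool.Agent.H33.RQ.pf_BRF hTRA hMON hSOL hPRJ
  have hHSU : Pool.Agent.H95.RQ.T_HSU := Pool.Agent.H86.RQ.HSU.pf_HSU hNMN hVAL hHQI hHQM hHQP hHQX hSUN
  have hLOC : Pool.Agent.H95.RQ.T_LOC := Pool.Agent.H69.RQ.pf_LOC hVQH hVH0 hVSG hLAM hNMN hVAL
  have hGLO : Pool.Agent.H95.RQ.T_GLO := Pool.Agent.H31.RQ.pf_GLO hHSU hH1S hLOC hWAP hFIX hNPO hUFE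
  have hFST : Pool.Agent.H95.RQ.T_FST := Pool.Agent.H74.RQ.pf_FST hEXT hGLO hDUA hFSX
  have hFIB : Pool.Agent.H28.RC.T_FIQ := Pool.Agent.H59.RQ.FIB.pf_FIB hFST hPCX hURX hFR2 hFRE
  exact ⟨hFIB, hBRF⟩

end Pool.Agent.H95.RQ.Asm
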