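import Pool.Agent.H29.RQ.Targets
import Pool.Agent.H77.RD.FR1
import Pool.Agent.H11.RDD.RS

/-! Board rdq_modules, row FRO: the Frobenius substitution at `p` in cyclotomic fields. -/

set_option autoImplicit false

namespace Pool.Agent.H95.RQ

open NumberField Height Finset Polynomial
open Pool.Agent.H24.RD Pool.Agent.H23.RDD Pool.Agent.H29.RQ
open Pool.Agent.H77.RD (Good good_of_finitePlace)

theorem zpoly (p : ℕ) (hp : p.Prime) {R : Type} [CommRing R] (z : R) (f : ℤ[X]) :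
    ∃ r : R, aeval (z ^ p) f - (aeval z f) ^ p = p * r := by
  have : Fact p.Prime := ⟨hp⟩
  have h2 : (expand ℤ p f - f ^ p).map (Int.castRingHom (ZMod p)) = 0 := by
    rw [Polynomial.map_sub, Polynomial.map_pow, map_expand, ZMod.expand_card, sub_self]
  have h3 : (C (p : ℤ)) ∣ (expand ℤ p f - f ^ p) := by
    rw [Polynomial.C_dvd_iff_dvd_coeff]
    intro i
    have := congrArg (fun q => Polynomial.coeff q i) h2
    simp only [coeff_map, coeff_zero, eq_intCast] at this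
    exact (ZMod.intCast_zmod_eq_zero_iff_dvd _ _).1 this
  obtain ⟨h, hh⟩ := h3
  refine ⟨aeval z h, ?_⟩
  have h4 := congrArg (aeval z) hh
  rw [map_sub, map_pow, map_mul, aeval_C, expand_aeval] at h4
  rw [h4]
  simp

theorem root_close {E : Type} [Field E] [NumberField E] {w : AbsoluteValue E ℝ} {p : ℕ}
    (h : Good E w p) (hp : p.Prime) (v : ℕ) (ρ : E) (hρ : ρ ^ (p ^ v) = 1) :
    w (ρ - 1) ≤ w (p : E) ^ (1 / ((p ^ v : ℕ) : ℝ)) := by
  have hq0 : p ^ v ≠ 0 := pow_ne_zero _ hp.ne_zero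
  have hi : IsIntegral ℤ ρ := ⟨X ^ (p ^ v) - 1, monic_X_pow_sub_C 1 hq0, by simp [hρ]⟩
  have hη : IsIntegral ℤ (ρ - 1) := hi.sub isIntegral_one
  obtain ⟨z, hz⟩ : ∃ z : 𝓞 E, (z : E) = ρ - 1 := ⟨⟨ρ - 1, hη⟩, rfl⟩
  obtain ⟨r, hr⟩ := exists_add_pow_prime_pow_eq hp (1 : 𝓞 E) z v
  have h1 := congrArg (fun x : 𝓞 E => (x : E)) hr
  simp only [map_add, map_mul, map_pow, map_natCast, map_one] at h1
  have hz' : algebraMap (𝓞 E) E z = ρ - 1 := hz
  rw [hz'] at h1
  have h2 : (ρ - 1) ^ (p ^ v) = -((p : E) * ((ρ - 1) * (r : E))) := by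
    have e : 1 + (ρ - 1) = ρ := by ring
    rw [e, hρ, one_pow] at h1
    linear_combination -h1
  have h3 : w (ρ - 1) ^ (p ^ v) ≤ w (p : E) := by
    rw [← map_pow, h2, w.map_neg, map_mul]
    exact mul_le_of_le_one_right (apply_nonneg _ _) (h.int _ (hη.mul r.2))
  have h4 := Real.rpow_le_rpow (pow_nonneg (apply_nonneg w _) _) h3
    (by positivity : (0 : ℝ) ≤ 1 / ((p ^ v : ℕ) : ℝ))
  rwa [one_div, Real.pow_rpow_inv_natCast (apply_nonneg w _) hq0, ← one_div] at h4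

theorem pf_FRO (_ : T_VB) : T_FRO := by
  intro E _ _ p v N' hp hN ζ hζ htop
  have hN0 : N' ≠ 0 := fun h0 => hN (h0 ▸ dvd_zero p)
  have hM0 : p ^ v * N' ≠ 0 := mul_ne_zero (pow_ne_zero _ hp.ne_zero) hN0
  have hMpos : 0 < p ^ v * N' := Nat.pos_of_ne_zero hM0
  have : NeZero (p ^ v * N') := ⟨hM0⟩
  have hint : IsIntegral ℤ ζ := hζ.isIntegral hMpos
  have hcyc : IsCyclotomicExtension {p ^ v * N'} ℚ E := by
    rw [IsCyclotomicExtension.iff_singleton]
    refine ⟨⟨ζ, hζ⟩, fun x => ?_⟩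
    have h1 : x ∈ IntermediateField.adjoin ℚ {ζ} := by rw [htop]; exact IntermediateField.mem_top
    have h2 : IsIntegral ℚ ζ := hint.tower_top
    rw [← IntermediateField.mem_toSubalgebra,
      IntermediateField.adjoin_simple_toSubalgebra_of_isAlgebraic h2.isAlgebraic] at h1
    have hsub : ({ζ} : Set E) ⊆ {b : E | b ^ (p ^ v * N') = 1} := by
      intro b hb
      rw [Set.mem_singleton_iff] at hb
      rw [Set.mem_ofPred_eq, hb]
      exact hζ.pow_eq_one
    exact (Algebra.adjoin_mono hsub : Algebra.adjoin ℚ {ζ} ≤ _) h1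
  have hgal : IsGalois ℚ E := IsCyclotomicExtension.isGalois {p ^ v * N'} ℚ E
  have hcop : Nat.Coprime (p ^ v) N' := Nat.Coprime.pow_left v ((hp.coprime_iff_not_dvd).2 hN)
  obtain ⟨u, hu1, hu2⟩ := Nat.chineseRemainder hcop 1 p
  have hucop : Nat.Coprime u (p ^ v * N') := by
    refine Nat.Coprime.mul_right ?_ ?_
    · have h1 := hu1.gcd_eq
      rw [Nat.gcd_one_left] at h1
      exact h1
    · have h1 := hu2.gcd_eq
      have h2 : Nat.gcd p N' = 1 := (hp.coprime_iff_not_dvd).2 hN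
      rw [h2] at h1
      exact h1
  have hζu : IsPrimitiveRoot (ζ ^ u) (p ^ v * N') := hζ.pow_of_coprime u hucop
  have hmin : minpoly ℚ (ζ ^ u) = minpoly ℚ ζ :=
    (cyclotomic_eq_minpoly_rat hζu hMpos).symm.trans (cyclotomic_eq_minpoly_rat hζ hMpos)
  rw [Normal.minpoly_eq_iff_mem_orbit] at hmin
  obtain ⟨φ, hφ⟩ := hmin
  have hφζ : φ ζ = ζ ^ u := hφ
  refine ⟨φ, fun w hw => ?_⟩
  have h : Good E w.1 p := good_of_finitePlace w hw
  have hp0 : (p : E) ≠ 0 := by exact_mod_cast hp.ne_zero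
  have hwp : 0 < w.1 (p : E) := w.1.pos hp0
  set ε : ℝ := w.1 (p : E) ^ (1 / ((p ^ v : ℕ) : ℝ)) with hε
  have hpv1 : (1 : ℝ) ≤ ((p ^ v : ℕ) : ℝ) := by
    exact_mod_cast Nat.one_le_pow _ _ hp.pos
  have hε1 : ε < 1 := Real.rpow_lt_one hwp.le hw (by positivity)
  have hpε : w.1 (p : E) ≤ ε := by
    calc w.1 (p : E) = w.1 (p : E) ^ (1 : ℝ) := (Real.rpow_one _).symm
      _ ≤ ε := Real.rpow_le_rpow_of_exponent_ge hwp hw.le (by
        rw [div_le_one (by positivity)]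
        exact hpv1)
  have hζ0 : ζ ≠ 0 := hζ.ne_zero hM0
  -- the two powers of `ζ`
  have hroot : w.1 (ζ ^ u - ζ ^ p) ≤ ε := by
    have h1 : (ζ ^ u / ζ ^ p) ^ (p ^ v) = 1 := by
      rw [div_pow, div_eq_one_iff_eq (pow_ne_zero _ (pow_ne_zero _ hζ0)), ← pow_mul, ← pow_mul]
      have h3 : u * p ^ v ≡ p * p ^ v [MOD N' * p ^ v] := hu2.mul_right' _
      rw [mul_comm N'] at h3
      rw [pow_eq_pow_mod (u * p ^ v) hζ.pow_eq_one, pow_eq_pow_mod (p * p ^ v) hζ.pow_eq_one, h3]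
    have h2 := root_close h hp v _ h1
    have h3 : ζ ^ u - ζ ^ p = ζ ^ p * (ζ ^ u / ζ ^ p - 1) := by
      field_simp
    rw [h3, map_mul]
    exact (mul_le_of_le_one_left (apply_nonneg _ _) (h.int _ (hint.pow p))).trans h2
  -- integral elements
  have hA : ∀ x : E, IsIntegral ℤ x → w.1 (φ x - x ^ p) ≤ ε := by
    intro x hx
    obtain ⟨y, rfl⟩ :=
      (IsCyclotomicExtension.Rat.isIntegralClosure_adjoin_singleton hζ).isIntegral_iff.1 hx
    obtain ⟨f, hf⟩ := (SetLike.ext_iff.1 (Algebra.adjoin_singleton_eq_range_aeval ℤ ζ) (y : E)).1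
      y.2
    have hyf : algebraMap (Algebra.adjoin ℤ {ζ}) E y = aeval ζ f := hf.symm
    rw [hyf]
    have e1 : φ (aeval ζ f) = aeval (ζ ^ u) f := by
      have := aeval_algHom_apply ((φ : E →ₐ[ℚ] E).restrictScalars ℤ) ζ f
      rw [← hφζ]
      exact this.symm
    rw [e1]
    obtain ⟨z, hz⟩ : ∃ z : 𝓞 E, (z : E) = ζ := ⟨⟨ζ, hint⟩, rfl⟩
    have hev : ∀ t : 𝓞 E, ((aeval t f : 𝓞 E) : E) = aeval (t : E) f := fun t =>
      (aeval_algebraMap_apply E t f).symm
    have h1 : w.1 (aeval (ζ ^ p) f - (aeval ζ f) ^ p) ≤ ε := by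
      obtain ⟨r, hr⟩ := zpoly p hp z f
      have h2 := congrArg (fun x : 𝓞 E => (x : E)) hr
      simp only [map_sub, map_mul, map_pow, map_natCast, hev, hz] at h2
      rw [h2, map_mul]
      exact (mul_le_of_le_one_right (apply_nonneg _ _) (h.int _ r.2)).trans hpε
    have h2 : w.1 (aeval (ζ ^ u) f - aeval (ζ ^ p) f) ≤ ε := by
      obtain ⟨r, hr⟩ : ∃ r : 𝓞 E, aeval (z ^ u) f - aeval (z ^ p) f = (z ^ u - z ^ p) * r := by
        have h3 := Polynomial.sub_dvd_eval_sub (z ^ u) (z ^ p) (f.map (algebraMap ℤ (𝓞 E)))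
        rw [eval_map_algebraMap, eval_map_algebraMap] at h3
        exact h3
      have h4 := congrArg (fun x : 𝓞 E => (x : E)) hr
      simp only [map_sub, map_mul, map_pow, hev, hz] at h4
      rw [h4, map_mul]
      exact (mul_le_of_le_one_right (apply_nonneg _ _) (h.int _ r.2)).trans hroot
    have h3 : aeval (ζ ^ u) f - (aeval ζ f) ^ p =
        (aeval (ζ ^ u) f - aeval (ζ ^ p) f) + (aeval (ζ ^ p) f - (aeval ζ f) ^ p) := by ring
    rw [h3]
    exact (h.na _ _).trans (max_le h2 h1)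
  -- the place is preserved
  have hB : ∀ x : E, w.1 (φ x) = w.1 x := by
    obtain ⟨u', k, hk, hu'⟩ :=
      @Pool.Agent.H11.RDD.pf_RS E E _ _ _ _ ((φ : E →+* E).toAlgebra) w
    have hu2' : ∀ x : E, w.1 (φ x) = (u'.1 x) ^ k := hu'
    have hle : w.maximalIdeal.asIdeal ≤ u'.maximalIdeal.asIdeal := by
      intro x hx
      have h1 := (FinitePlace.norm_lt_one_iff_mem (K := E) w.maximalIdeal x).2 hx
      rw [FinitePlace.norm_embedding_eq] at h1
      have h1' : w.1 (x : E) < 1 := h1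
      have h2 : w.1 (φ (x : E)) < 1 := by
        have h3 : φ (x : E) = (φ (x : E) - (x : E) ^ p) + (x : E) ^ p := by ring
        rw [h3]
        refine lt_of_le_of_lt (h.na _ _) (max_lt (lt_of_le_of_lt (hA _ x.2) hε1) ?_)
        rw [map_pow]
        exact pow_lt_one₀ (apply_nonneg _ _) h1' hp.ne_zero
      rw [hu2'] at h2
      have h3 : u'.1 (x : E) < 1 := by
        by_contra hcon
        have h4 := Real.one_le_rpow (not_lt.1 hcon) hk.le
        linarith
      refine (FinitePlace.norm_lt_one_iff_mem (K := E) u'.maximalIdeal x).1 ?_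
      rw [FinitePlace.norm_embedding_eq]
      exact h3
    have hmax : w.maximalIdeal.asIdeal = u'.maximalIdeal.asIdeal :=
      (w.maximalIdeal.isMaximal).eq_of_le (u'.maximalIdeal.isPrime.ne_top) hle
    have huw : u' = w := by
      rw [← FinitePlace.maximalIdeal_inj]
      exact IsDedekindDomain.HeightOneSpectrum.ext hmax.symm
    rw [huw] at hu2'
    have hk1 : k = 1 := by
      have h1 := hu2' (p : E)
      rw [map_natCast] at h1
      have h2 : w.1 (p : E) ^ (1 : ℝ) = w.1 (p : E) ^ k := by rw [Real.rpow_one]; exact h1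
      exact ((Real.rpow_right_inj hwp hw.ne).1 h2).symm
    intro x
    rw [hu2', hk1, Real.rpow_one]
  refine ⟨hB, fun x hx => ?_⟩
  -- quotients
  have hC : ∀ n d : E, IsIntegral ℤ n → IsIntegral ℤ d → w.1 d = 1 → x * d = n →
      w.1 (φ x - x ^ p) ≤ ε := by
    intro n d hn hd hd1 hxd
    have hd0 : d ≠ 0 := by
      rintro rfl
      rw [map_zero] at hd1
      exact zero_ne_one hd1
    have hφd0 : φ d ≠ 0 := (map_ne_zero φ).2 hd0
    have e1 : φ x = φ n / φ d := by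
      rw [eq_div_iff hφd0, ← map_mul, hxd]
    have e2 : x ^ p = n ^ p / d ^ p := by
      rw [eq_div_iff (pow_ne_zero _ hd0), ← mul_pow, hxd]
    have e3 : φ x - x ^ p = ((φ n - n ^ p) * d ^ p - n ^ p * (φ d - d ^ p)) / (φ d * d ^ p) := by
      rw [e1, e2]
      have := pow_ne_zero p hd0
      field_simp
      ring
    have hdp : w.1 (d ^ p) = 1 := by rw [map_pow, hd1, one_pow]
    rw [e3, map_div₀, map_mul, hB, hd1, hdp, mul_one, div_one]
    refine (h.sub_le _ _).trans (max_le ?_ ?_)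
    · rw [map_mul, hdp, mul_one]
      exact hA n hn
    · rw [map_mul]
      exact (mul_le_of_le_one_left (apply_nonneg _ _) (h.int _ (hn.pow p))).trans (hA d hd)
  obtain ⟨n, d, hnd⟩ := IsDedekindDomain.HeightOneSpectrum.exists_primeCompl_mul_eq_or_mul_eq
    (K := E) w.maximalIdeal x
  have hd1 : w.1 (algebraMap (𝓞 E) E d) = 1 := by
    have h1 := (FinitePlace.norm_eq_one_iff_notMem (K := E) w.maximalIdeal (d : 𝓞 E)).2 d.2
    rw [FinitePlace.norm_embedding_eq] at h1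
    exact h1
  rcases hnd with hnd | hnd
  · exact hC _ _ n.2 (d : 𝓞 E).2 hd1 hnd
  · refine hC _ _ (d : 𝓞 E).2 n.2 ?_ hnd
    have h1 : w.1 x * w.1 (algebraMap (𝓞 E) E n) = 1 := by
      rw [← map_mul, hnd, hd1]
    have h2 : w.1 (algebraMap (𝓞 E) E n) ≤ 1 := h.int _ n.2
    have h3 : 0 ≤ w.1 (algebraMap (𝓞 E) E n) := apply_nonneg _ _
    have h4 : 0 ≤ w.1 x := apply_nonneg _ _
    show w.1 (algebraMap (𝓞 E) E n) = 1
    nlinarith

end Pool.Agent.H95.RQ
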