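import Pool.Agent.H29.RQ.Targets

/-! Board rdq_modules, row FRX: the determinant of the Frobenius images of the powers. -/

set_option autoImplicit false

namespace Pool.Agent.H95.RQ

open NumberField Height Finset Polynomial
open Pool.Agent.H24.RD Pool.Agent.H23.RDD Pool.Agent.H29.RQ

/-! ### orbits -/

section orb

variable (E M : Type) [Field E] [NumberField E] [Field M] [NumberField M] [Algebra E M]

open Classical in
/-- the images of `β` under the automorphisms which restrict to `t` -/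
noncomputable def Orb (β : M) (t : E ≃ₐ[ℚ] E) : Finset M :=
  (univ.filter (fun σ : M ≃ₐ[ℚ] M => ∀ y : E, σ (algebraMap E M y) = algebraMap E M (t y))).image
    (fun σ => σ β)

variable {E M}

theorem mem_Orb (β : M) (t : E ≃ₐ[ℚ] E) (x : M) : x ∈ Orb E M β t ↔
    ∃ σ : M ≃ₐ[ℚ] M, (∀ y : E, σ (algebraMap E M y) = algebraMap E M (t y)) ∧ σ β = x := by
  unfold Orb
  simp only [mem_image, mem_filter, mem_univ, true_and]

theorem exists_lift [IsGalois ℚ M] (t : E ≃ₐ[ℚ] E) :
    ∃ σ : M ≃ₐ[ℚ] M, ∀ y : E, σ (algebraMap E M y) = algebraMap E M (t y) :=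
  ⟨t.liftNormal M, fun y => AlgEquiv.liftNormal_commutes t M y⟩

theorem Orb_map (β : M) (t u : E ≃ₐ[ℚ] E) (σ : M ≃ₐ[ℚ] M)
    (hσ : ∀ y : E, σ (algebraMap E M y) = algebraMap E M (t y)) :
    (∏ x ∈ Orb E M β u, (X - C x)).map (σ : M →+* M) = ∏ x ∈ Orb E M β (t * u), (X - C x) := by
  rw [Polynomial.map_prod]
  refine Finset.prod_bij (fun x _ => σ x) ?_ ?_ ?_ ?_
  · intro x hx
    rw [mem_Orb] at hx ⊢
    obtain ⟨τ, hτ, rfl⟩ := hx
    refine ⟨σ * τ, fun y => ?_, rfl⟩
    rw [AlgEquiv.mul_apply, AlgEquiv.mul_apply, hτ, hσ]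
  · intro x _ y _ hxy
    exact σ.injective hxy
  · intro y hy
    rw [mem_Orb] at hy
    obtain ⟨τ, hτ, rfl⟩ := hy
    refine ⟨σ⁻¹ (τ β), ?_, ?_⟩
    · rw [mem_Orb]
      refine ⟨σ⁻¹ * τ, fun y => ?_, rfl⟩
      rw [AlgEquiv.mul_apply, hτ, AlgEquiv.mul_apply]
      have h1 := hσ (u y)
      rw [← h1, ← AlgEquiv.mul_apply, inv_mul_cancel]
      rfl
    · rw [← AlgEquiv.mul_apply, mul_inv_cancel]
      rfl
  · intro x _
    rw [Polynomial.map_sub, Polynomial.map_X, Polynomial.map_C]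
    rfl

theorem exists_poly [IsGalois ℚ M] (β : M) : ∃ f : E[X], ∀ (t : E ≃ₐ[ℚ] E) (e : E →+* E),
    (∀ x, e x = t x) → (f.map e).map (algebraMap E M) = ∏ x ∈ Orb E M β t, (X - C x) := by
  have hG : IsGalois E M := IsGalois.tower_top_of_isGalois ℚ E M
  have hF : FiniteDimensional E M := Module.Finite.of_restrictScalars_finite ℚ E M
  have h1 : (∏ x ∈ Orb E M β 1, (X - C x)) ∈ lifts (algebraMap E M) := by
    rw [lifts_iff_coeff_lifts]
    intro n
    rw [IsGalois.mem_range_algebraMap_iff_fixed]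
    intro s
    have h2 := Orb_map β 1 1 (s.restrictScalars ℚ) (fun y => by
      rw [AlgEquiv.restrictScalars_apply, s.commutes]
      rfl)
    rw [mul_one] at h2
    have h3 := congrArg (fun p : M[X] => p.coeff n) h2
    simp only [Polynomial.coeff_map] at h3
    exact h3
  obtain ⟨f, hf⟩ := (mem_lifts _).1 h1
  refine ⟨f, fun t e he => ?_⟩
  obtain ⟨σ, hσ⟩ := exists_lift (M := M) t
  have h2 : (algebraMap E M).comp e = ((σ : M →+* M)).comp (algebraMap E M) := by
    ext y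
    show algebraMap E M (e y) = σ (algebraMap E M y)
    rw [he, hσ]
  rw [Polynomial.map_map, h2, ← Polynomial.map_map, hf, Orb_map β t 1 σ hσ, mul_one]

theorem card_Orb [IsGalois ℚ M] (β : M) (t : E ≃ₐ[ℚ] E) :
    (Orb E M β t).card = (Orb E M β 1).card := by
  obtain ⟨f, hf⟩ := exists_poly (E := E) β
  have h1 : ∀ t : E ≃ₐ[ℚ] E, (Orb E M β t).card = f.natDegree := by
    intro t
    have h2 := hf t (t : E →+* E) (fun x => rfl)
    have h3 := congrArg Polynomial.natDegree h2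
    rw [Polynomial.natDegree_map, Polynomial.natDegree_map,
      Polynomial.natDegree_prod_of_monic _ _ fun x _ => monic_X_sub_C x] at h3
    simp only [natDegree_X_sub_C, sum_const, smul_eq_mul, mul_one] at h3
    exact h3.symm
  rw [h1, h1]

end orb

/-! ### the chordal distance -/

theorem dch_comm {M : Type} [Field M] (v : AbsoluteValue M ℝ) (x y : M) :
    dch v x y = dch v y x := by
  unfold dch
  rw [AbsoluteValue.map_sub, mul_comm]

theorem dch_nonneg {M : Type} [Field M] (v : AbsoluteValue M ℝ) (x y : M) : 0 ≤ dch v x y := by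
  unfold dch
  exact div_nonneg (AbsoluteValue.nonneg _ _) (by positivity)

theorem dch_le {M : Type} [Field M] (v : AbsoluteValue M ℝ) (hv : IsNonarchimedean v) (x y : M) :
    dch v x y ≤ 1 := by
  unfold dch
  refine div_le_one_of_le₀ ?_ (by positivity)
  have h1 : v (x - y) ≤ max (v x) (v y) := by
    have h2 := hv x (-y)
    rw [← sub_eq_add_neg, AbsoluteValue.map_neg] at h2
    exact h2
  refine h1.trans (max_le ?_ ?_)
  · calc v x ≤ max (v x) 1 * 1 := by rw [mul_one]; exact le_max_left _ _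
      _ ≤ _ := mul_le_mul_of_nonneg_left (le_max_right _ _) (by positivity)
  · calc v y ≤ 1 * max (v y) 1 := by rw [one_mul]; exact le_max_left _ _
      _ ≤ _ := mul_le_mul_of_nonneg_right (le_max_right _ _) (by positivity)

/-! ### combinatorics -/

theorem prod_subset_le {M : Type} (f : M → ℝ) (h01 : ∀ y, 0 ≤ f y ∧ f y ≤ 1) (s t : Finset M)
    (hst : s ⊆ t) : ∏ y ∈ t, f y ≤ ∏ y ∈ s, f y := by
  classical
  rw [← Finset.prod_sdiff hst]
  have h1 : ∏ y ∈ t \ s, f y ≤ 1 := Finset.prod_le_one (fun y _ => (h01 y).1) fun y _ => (h01 y).2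
  have h2 : 0 ≤ ∏ y ∈ s, f y := Finset.prod_nonneg fun y _ => (h01 y).1
  calc (∏ y ∈ t \ s, f y) * ∏ y ∈ s, f y ≤ 1 * ∏ y ∈ s, f y := mul_le_mul_of_nonneg_right h1 h2
    _ = ∏ y ∈ s, f y := one_mul _

theorem sum_min (s : ℕ) :
    3 * (∑ b ∈ range s, ∑ a ∈ range s, (min a b + 1)) = s ^ 3 + 3 * (∑ a ∈ range s, (a + 1)) - s
    := by
  have hg : ∀ s : ℕ, 2 * ∑ a ∈ range s, (a + 1) = s * (s + 1) := by
    intro s
    induction s with
    | zero => simp
    | succ n ih =>
      rw [sum_range_succ, mul_add, ih]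
      ring
  have h : 3 * (∑ b ∈ range s, ∑ a ∈ range s, (min a b + 1)) + s =
      s ^ 3 + 3 * (∑ a ∈ range s, (a + 1)) := by
    induction s with
    | zero => simp
    | succ n ih =>
      have h1 : ∑ b ∈ range (n + 1), ∑ a ∈ range (n + 1), (min a b + 1) =
          (∑ b ∈ range n, ∑ a ∈ range n, (min a b + 1)) + (∑ b ∈ range n, (b + 1)) +
            ((∑ a ∈ range n, (a + 1)) + (n + 1)) := by
        rw [sum_range_succ]
        have h2 : ∀ b ∈ range n, ∑ a ∈ range (n + 1), (min a b + 1) =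
            (∑ a ∈ range n, (min a b + 1)) + (b + 1) := by
          intro b hb
          rw [sum_range_succ, min_eq_right (mem_range.1 hb).le]
        rw [sum_congr rfl h2, sum_add_distrib]
        congr 1
        rw [sum_range_succ, min_self]
        congr 1
        refine sum_congr rfl fun a ha => ?_
        rw [min_eq_left (mem_range.1 ha).le]
      rw [h1, sum_range_succ]
      have h3 := hg n
      have h4 : (n + 1) ^ 3 = n ^ 3 + 3 * n ^ 2 + 3 * n + 1 := by ring
      have h5 : n * (n + 1) = n ^ 2 + n := by ring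
      omega
  omega

theorem sum_erase_min (s : ℕ) :
    ((∑ b ∈ range s, ∑ a ∈ (range s).erase b, (min a b + 1) : ℕ) : ℝ) =
      ((s : ℝ) ^ 3 - s) / 3 := by
  have h1 : (∑ b ∈ range s, ∑ a ∈ (range s).erase b, (min a b + 1)) +
      ∑ b ∈ range s, (b + 1) = ∑ b ∈ range s, ∑ a ∈ range s, (min a b + 1) := by
    rw [← sum_add_distrib]
    refine sum_congr rfl fun b hb => ?_
    rw [← sum_erase_add (range s) (fun a => min a b + 1) hb, min_self]
  have h2 := sum_min s
  have h4 : s ≤ s ^ 3 := by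
    rcases Nat.eq_zero_or_pos s with h | h
    · simp [h]
    · exact Nat.le_self_pow (by norm_num) s
  have h3 : 3 * (∑ b ∈ range s, ∑ a ∈ (range s).erase b, (min a b + 1)) + s = s ^ 3 := by
    omega
  have h5 : (3 : ℝ) * ((∑ b ∈ range s, ∑ a ∈ (range s).erase b, (min a b + 1) : ℕ) : ℝ) + s =
      (s : ℝ) ^ 3 := by exact_mod_cast h3
  linarith

open Classical in
theorem comb {M : Type} (κ : M → M → ℝ) (hsym : ∀ x y, κ x y = κ y x)
    (h01 : ∀ x y, 0 ≤ κ x y ∧ κ x y ≤ 1) (c : ℝ) (s D : ℕ)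
    (Y : ℕ → Finset M) (hcard : ∀ a < s, (Y a).card = D)
    (hdisj : ∀ a < s, ∀ b < s, a < b → Disjoint (Y a) (Y b))
    (hY : ∀ a b, a < b → b < s → ∀ x ∈ Y b, ∏ y ∈ Y a, κ x y ≤ c ^ (a + 1)) :
    ∏ x ∈ (range s).biUnion Y, ∏ y ∈ ((range s).biUnion Y).erase x, κ x y ≤
      c ^ ((D : ℝ) * (((s : ℝ) ^ 3 - s) / 3)) := by
  have hd : ∀ a < s, ∀ b < s, a ≠ b → Disjoint (Y a) (Y b) := by
    intro a ha b hb hab
    rcases lt_or_gt_of_ne hab with h | h
    · exact hdisj a ha b hb h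
    · exact (hdisj b hb a ha h).symm
  have hpd : ((range s : Finset ℕ) : Set ℕ).PairwiseDisjoint Y := by
    intro a ha b hb hab
    exact hd a (by simpa using ha) b (by simpa using hb) hab
  have hQ : ∀ b < s, ∀ a < s, a ≠ b → ∏ x ∈ Y b, ∏ y ∈ Y a, κ x y ≤ c ^ (D * (min a b + 1)) := by
    intro b hb a ha hab
    rcases lt_or_gt_of_ne hab with h | h
    · rw [min_eq_left h.le]
      calc ∏ x ∈ Y b, ∏ y ∈ Y a, κ x y ≤ ∏ x ∈ Y b, c ^ (a + 1) :=
            Finset.prod_le_prod (fun x _ => Finset.prod_nonneg fun y _ => (h01 x y).1)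
              fun x hx => hY a b h hb x hx
        _ = c ^ (D * (a + 1)) := by
            rw [Finset.prod_const, hcard b hb, ← pow_mul, mul_comm]
    · rw [min_eq_right h.le, Finset.prod_comm]
      calc ∏ y ∈ Y a, ∏ x ∈ Y b, κ x y ≤ ∏ y ∈ Y a, c ^ (b + 1) := by
            refine Finset.prod_le_prod (fun x _ => Finset.prod_nonneg fun y _ => (h01 _ _).1)
              fun y hy => ?_
            refine le_trans (le_of_eq ?_) (hY b a h ha y hy)
            exact Finset.prod_congr rfl fun x _ => hsym x y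
        _ = c ^ (D * (b + 1)) := by
            rw [Finset.prod_const, hcard a ha, ← pow_mul, mul_comm]
  have h1 : ∏ x ∈ (range s).biUnion Y, ∏ y ∈ ((range s).biUnion Y).erase x, κ x y ≤
      ∏ b ∈ range s, ∏ x ∈ Y b, ∏ a ∈ (range s).erase b, ∏ y ∈ Y a, κ x y := by
    rw [Finset.prod_biUnion hpd]
    refine Finset.prod_le_prod (fun b _ => Finset.prod_nonneg fun x _ =>
      Finset.prod_nonneg fun y _ => (h01 x y).1) fun b hb => ?_
    refine Finset.prod_le_prod (fun x _ => Finset.prod_nonneg fun y _ => (h01 x y).1)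
      fun x hx => ?_
    rw [← Finset.prod_biUnion (fun a ha a' ha' h => hpd (by
      simpa using (mem_erase.1 ha).2) (by simpa using (mem_erase.1 ha').2) h)]
    refine prod_subset_le (κ x) (h01 x) _ _ fun y hy => ?_
    rw [mem_biUnion] at hy
    obtain ⟨a, ha, hya⟩ := hy
    rw [mem_erase] at ha ⊢
    refine ⟨?_, mem_biUnion.2 ⟨a, ha.2, hya⟩⟩
    rintro rfl
    exact (Finset.disjoint_left.1 (hd a (mem_range.1 ha.2) b (mem_range.1 hb) ha.1) hya) hx
  refine h1.trans ?_
  have h2 : ∏ b ∈ range s, ∏ x ∈ Y b, ∏ a ∈ (range s).erase b, ∏ y ∈ Y a, κ x y =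
      ∏ b ∈ range s, ∏ a ∈ (range s).erase b, ∏ x ∈ Y b, ∏ y ∈ Y a, κ x y :=
    Finset.prod_congr rfl fun b _ => Finset.prod_comm
  rw [h2]
  have h3 : ∏ b ∈ range s, ∏ a ∈ (range s).erase b, ∏ x ∈ Y b, ∏ y ∈ Y a, κ x y ≤
      ∏ b ∈ range s, ∏ a ∈ (range s).erase b, c ^ (D * (min a b + 1)) := by
    refine Finset.prod_le_prod (fun b _ => Finset.prod_nonneg fun a _ => Finset.prod_nonneg
      fun x _ => Finset.prod_nonneg fun y _ => (h01 x y).1) fun b hb => ?_
    refine Finset.prod_le_prod (fun a _ => Finset.prod_nonneg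
      fun x _ => Finset.prod_nonneg fun y _ => (h01 x y).1) fun a ha => ?_
    rw [mem_erase] at ha
    exact hQ b (mem_range.1 hb) a (mem_range.1 ha.2) ha.1
  refine h3.trans (le_of_eq ?_)
  have h4 : ∏ b ∈ range s, ∏ a ∈ (range s).erase b, c ^ (D * (min a b + 1)) =
      c ^ (D * ∑ b ∈ range s, ∑ a ∈ (range s).erase b, (min a b + 1)) := by
    rw [Finset.mul_sum]
    simp only [Finset.mul_sum]
    rw [← Finset.prod_pow_eq_pow_sum]
    refine Finset.prod_congr rfl fun b _ => ?_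
    rw [← Finset.prod_pow_eq_pow_sum]
  rw [h4, ← Real.rpow_natCast, Nat.cast_mul, sum_erase_min]

/-! ### iteration of the Frobenius substitution -/

theorem frob_iter {E M : Type} [Field E] [NumberField E] [Field M] [Algebra E M]
    (w : AbsoluteValue M ℝ) (hw : IsNonarchimedean w) (p : ℕ) (ε : ℝ) (φ : E ≃ₐ[ℚ] E)
    (h1 : ∀ x : E, w (algebraMap E M (φ x)) = w (algebraMap E M x)) (hε : 0 < ε)
    (h2 : ∀ x : E, w (algebraMap E M x) ≤ 1 → w (algebraMap E M (φ x - x ^ p)) ≤ ε) (c : ℕ) :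
    (∀ x : E, w (algebraMap E M ((φ ^ c) x)) = w (algebraMap E M x)) ∧
    ∀ x : E, w (algebraMap E M x) ≤ 1 → w (algebraMap E M ((φ ^ c) x - x ^ (p ^ c))) ≤ ε := by
  induction c with
  | zero =>
    refine ⟨fun x => by rw [pow_zero]; rfl, fun x _ => ?_⟩
    rw [pow_zero, pow_zero, pow_one]
    have : (1 : E ≃ₐ[ℚ] E) x - x = 0 := sub_self _
    rw [this, map_zero, map_zero]
    exact hε.le
  | succ c ih =>
    obtain ⟨i1, i2⟩ := ih
    have e1 : ∀ x : E, (φ ^ (c + 1)) x = φ ((φ ^ c) x) := by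
      intro x
      rw [pow_succ', AlgEquiv.mul_apply]
    refine ⟨fun x => by rw [e1, h1, i1], fun x hx => ?_⟩
    have hy : w (algebraMap E M ((φ ^ c) x)) ≤ 1 := by rw [i1]; exact hx
    have h3 := h2 _ hy
    have h4 := i2 x hx
    have h5 : w (algebraMap E M (((φ ^ c) x) ^ p - (x ^ (p ^ c)) ^ p)) ≤ ε := by
      obtain ⟨z, hz⟩ : ∃ z : E, ((φ ^ c) x) ^ p - (x ^ (p ^ c)) ^ p =
          ((φ ^ c) x - x ^ (p ^ c)) * z ∧ w (algebraMap E M z) ≤ 1 := by
        refine ⟨∑ i ∈ range p, ((φ ^ c) x) ^ i * (x ^ (p ^ c)) ^ (p - 1 - i), ?_, ?_⟩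
        · rw [mul_comm]
          exact (Commute.all _ _).geom_sum₂_mul p |>.symm
        · rw [map_sum]
          have h6 : ∀ t : Finset ℕ, w (∑ i ∈ t, algebraMap E M (((φ ^ c) x) ^ i *
              (x ^ (p ^ c)) ^ (p - 1 - i))) ≤ 1 := by
            intro t
            induction t using Finset.induction_on with
            | empty =>
              rw [sum_empty, map_zero]
              exact zero_le_one
            | insert i t hi ih =>
              rw [sum_insert hi]
              refine (hw _ _).trans (max_le ?_ ih)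
              simp only [map_mul, map_pow]
              have h7 : w (algebraMap E M ((φ ^ c) x)) ^ i ≤ 1 :=
                pow_le_one₀ (AbsoluteValue.nonneg _ _) hy
              have h8 : (w (algebraMap E M x) ^ (p ^ c)) ^ (p - 1 - i) ≤ 1 :=
                pow_le_one₀ (pow_nonneg (AbsoluteValue.nonneg _ _) _)
                  (pow_le_one₀ (AbsoluteValue.nonneg _ _) hx)
              exact mul_le_one₀ h7 (pow_nonneg (pow_nonneg (AbsoluteValue.nonneg _ _) _) _) h8
          exact h6 _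
      rw [hz.1, map_mul, map_mul]
      calc w (algebraMap E M ((φ ^ c) x - x ^ (p ^ c))) * w (algebraMap E M z) ≤ ε * 1 :=
            mul_le_mul h4 hz.2 (AbsoluteValue.nonneg _ _) hε.le
        _ = ε := mul_one _
    have h6 : algebraMap E M ((φ ^ (c + 1)) x - x ^ (p ^ (c + 1))) =
        algebraMap E M (φ ((φ ^ c) x) - ((φ ^ c) x) ^ p) +
          algebraMap E M (((φ ^ c) x) ^ p - (x ^ (p ^ c)) ^ p) := by
      rw [← map_add, e1, pow_succ, pow_mul]
      congr 1
      ring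
    rw [h6]
    exact (hw _ _).trans (max_le h3 h5)

/-! ### the row -/

theorem sum_pow_le (p v s : ℕ) (hp : 2 ≤ p) : ∑ a ∈ range s, p ^ (v + a) ≤ p ^ (v + s) := by
  induction s with
  | zero => simp
  | succ n ih =>
    rw [sum_range_succ]
    calc (∑ a ∈ range n, p ^ (v + a)) + p ^ (v + n) ≤ p ^ (v + n) + p ^ (v + n) :=
          Nat.add_le_add_right ih _
      _ = 2 * p ^ (v + n) := (two_mul _).symm
      _ ≤ p * p ^ (v + n) := Nat.mul_le_mul_right _ hp
      _ = p ^ (v + (n + 1)) := by rw [← add_assoc, pow_succ, mul_comm]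

theorem pf_FRX (h1 : T_RS) (h2 : T_HA) (h3 : T_HB) (h4 : T_VB) (h5 : T_PFX) (h6 : T_PRF)
    (h7 : T_POWQ) : T_FRX := by
  classical
  intro E M _ _ _ _ _ _ _ p v hp φ hφ d β hd hβ hβ1 hcj hred s hs
  obtain ⟨f, hf⟩ := exists_poly (E := E) β
  obtain ⟨b1, -, -, b4, -, b6, b7⟩ := h3 M
  have hR : (0 : ℝ) < Module.finrank ℚ M := by exact_mod_cast Module.finrank_pos
  have ha : ∀ x : M, absLogHeight₁ x = logHeight₁ x / Module.finrank ℚ M := fun x => h2 M M x
  have hp0 : (0 : ℝ) < p := by exact_mod_cast hp.pos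
  have hh : ∀ (σ : M ≃ₐ[ℚ] M) (n : ℕ), logHeight₁ ((σ β) ^ n) = n * logHeight₁ β := by
    intro σ n
    have c1 := b4 (σ β) n
    have c2 := b6 (σ : M ≃+* M) β
    have c3 : absLogHeight₁ (σ β) = absLogHeight₁ β := c2
    rw [c3, ha, ha, ← mul_div_assoc] at c1
    exact (div_left_inj' hR.ne').1 c1
  have hH : 0 ≤ logHeight₁ β := by
    have c1 := b1 β
    rw [ha] at c1
    have c2 := mul_nonneg c1 hR.le
    rwa [div_mul_cancel₀ _ hR.ne'] at c2
  have hH0 : logHeight₁ β ≠ 0 := by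
    intro h0
    obtain ⟨n, hn, hn1⟩ := b7 β hβ (by rw [ha, h0, zero_div])
    exact hβ1 n hn hn1
  set D : ℕ := (Orb E M β 1).card with hD
  have hD1 : 1 ≤ D := by
    refine Finset.card_pos.2 ⟨β, ?_⟩
    rw [mem_Orb]
    exact ⟨1, fun y => rfl, rfl⟩
  have hDd : D ≤ d := by
    obtain ⟨s', hs', hs2⟩ := hcj
    refine (Finset.card_le_card fun x hx => ?_).trans hs'
    rw [mem_Orb] at hx
    obtain ⟨σ, hσ, rfl⟩ := hx
    exact hs2 σ fun y => hσ y
  have hinj : ∀ (t : E ≃ₐ[ℚ] E) (k : ℕ),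
      Set.InjOn (fun x : M => x ^ (p ^ k)) (Orb E M β t : Set M) := by
    intro t k x hx y hy hxy
    rw [Finset.mem_coe, mem_Orb] at hx hy
    obtain ⟨σ, hσ, rfl⟩ := hx
    obtain ⟨τ, hτ, rfl⟩ := hy
    have c1 := hred (σ⁻¹ * τ) (fun y => by
      rw [AlgEquiv.mul_apply, hτ, ← hσ, ← AlgEquiv.mul_apply, inv_mul_cancel]
      rfl) k (by
      have c2 : (σ β) ^ (p ^ k) = (τ β) ^ (p ^ k) := hxy
      rw [AlgEquiv.mul_apply, ← map_pow, ← c2, map_pow, ← AlgEquiv.mul_apply, inv_mul_cancel]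
      rfl)
    have c2 := congrArg σ c1
    rw [← AlgEquiv.mul_apply, mul_inv_cancel_left] at c2
    exact c2.symm
  set t : ℕ → (E ≃ₐ[ℚ] E) := fun a => (φ⁻¹) ^ (v + a) with ht
  set Y : ℕ → Finset M := fun a => (Orb E M β (t a)).image (fun x => x ^ (p ^ (v + a))) with hYdef
  have hYc : ∀ a < s, (Y a).card = D := by
    intro a _
    rw [hYdef]
    show ((Orb E M β (t a)).image (fun x => x ^ (p ^ (v + a)))).card = D
    rw [Finset.card_image_of_injOn (hinj _ _), card_Orb]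
  have hYh : ∀ a, ∀ x ∈ Y a, logHeight₁ x = ((p ^ (v + a) : ℕ) : ℝ) * logHeight₁ β := by
    intro a x hx
    rw [hYdef] at hx
    obtain ⟨y, hy, rfl⟩ := Finset.mem_image.1 hx
    rw [mem_Orb] at hy
    obtain ⟨σ, -, rfl⟩ := hy
    exact hh σ _
  have hYd : ∀ a < s, ∀ b < s, a < b → Disjoint (Y a) (Y b) := by
    intro a _ b _ hab
    rw [Finset.disjoint_left]
    intro x hxa hxb
    have c1 := hYh a x hxa
    rw [hYh b x hxb] at c1
    have c2 := mul_right_cancel₀ hH0 c1
    have c3 : p ^ (v + b) = p ^ (v + a) := by exact_mod_cast c2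
    have c4 := Nat.pow_right_injective hp.two_le c3
    omega
  obtain ⟨P, hP, hPs, hPX⟩ := h5 M p hp
  set XX : Finset M := (range s).biUnion Y with hXX
  have hloc : ∀ w ∈ P, ∏ x ∈ XX, ∏ y ∈ XX.erase x, dch w.1 x y ≤
      w.1 (p : M) ^ ((D : ℝ) * (((s : ℝ) ^ 3 - s) / 3)) := by
    intro w hwP
    have hw := (hP w).1 hwP
    obtain ⟨hna, hwp, -⟩ := h4 M p hp w hw
    refine comb (fun x y => dch w.1 x y) (fun x y => dch_comm _ _ _)
      (fun x y => ⟨dch_nonneg _ _ _, dch_le _ hna _ _⟩) _ s D Y hYc hYd ?_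
    obtain ⟨u, κ, hκ, hu⟩ := h1 E M w
    have hup : u.1 (p : E) < 1 := by
      by_contra hcon
      have c1 := hu (p : E)
      rw [map_natCast] at c1
      have c2 : (1 : ℝ) ≤ (u.1 (p : E)) ^ κ := Real.one_le_rpow (not_lt.1 hcon) hκ.le
      linarith
    obtain ⟨hφ1, hφ2⟩ := hφ u hup
    set δ : ℝ := 1 / ((p ^ v : ℕ) : ℝ) with hδ
    have hpv : (0 : ℝ) < ((p ^ v : ℕ) : ℝ) := by
      have : 0 < p ^ v := pow_pos hp.pos _
      exact_mod_cast this
    have hδ0 : 0 < δ := by positivity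
    have hδ1 : δ ≤ 1 := by
      rw [hδ, div_le_one hpv]
      have : 1 ≤ p ^ v := Nat.one_le_pow _ _ hp.pos
      exact_mod_cast this
    set ε : ℝ := w.1 (p : M) ^ δ with hε
    have hε0 : 0 < ε := Real.rpow_pos_of_pos hwp _
    have hε1 : ε < 1 := Real.rpow_lt_one hwp.le hw hδ0
    have hpε : w.1 (p : M) ≤ ε := by
      calc w.1 (p : M) = w.1 (p : M) ^ (1 : ℝ) := (Real.rpow_one _).symm
        _ ≤ ε := Real.rpow_le_rpow_of_exponent_ge hwp hw.le hδ1
    have hφw1 : ∀ x : E, w.1 (algebraMap E M (φ x)) = w.1 (algebraMap E M x) := by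
      intro x
      rw [hu, hu, hφ1]
    have hφw2 : ∀ x : E, w.1 (algebraMap E M x) ≤ 1 →
        w.1 (algebraMap E M (φ x - x ^ p)) ≤ ε := by
      intro x hx
      have c1 : u.1 x ≤ 1 := by
        by_contra hcon
        rw [hu] at hx
        have c2 := Real.one_lt_rpow (not_le.1 hcon) hκ
        linarith
      have c2 := hφ2 x c1
      rw [hu]
      calc (u.1 (φ x - x ^ p)) ^ κ ≤ ((u.1 (p : E)) ^ δ) ^ κ :=
            Real.rpow_le_rpow (AbsoluteValue.nonneg _ _) c2 hκ.le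
        _ = ((u.1 (p : E)) ^ κ) ^ δ := by
            rw [← Real.rpow_mul (AbsoluteValue.nonneg _ _), mul_comm,
              Real.rpow_mul (AbsoluteValue.nonneg _ _)]
        _ = ε := by
            rw [hε, ← hu, map_natCast]
    intro a b hab hbs x hx
    rw [hYdef] at hx
    obtain ⟨z, hz, rfl⟩ := Finset.mem_image.1 hx
    have c0 : ∏ y ∈ Y a, dch w.1 (z ^ (p ^ (v + b))) y =
        ∏ y ∈ Orb E M β (t a), dch w.1 (z ^ (p ^ (v + b))) (y ^ (p ^ (v + a))) := by
      rw [hYdef]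
      exact Finset.prod_image (hinj _ _)
    show ∏ y ∈ Y a, dch w.1 (z ^ (p ^ (v + b))) y ≤ w.1 (p : M) ^ (a + 1)
    rw [c0]
    obtain ⟨g1, g2⟩ := frob_iter (M := M) w.1 hna p ε φ hφw1 hε0 hφw2 (b - a)
    have hgrp : φ ^ (b - a) * t b = t a := by
      have e1 : v + b = (b - a) + (v + a) := by omega
      show φ ^ (b - a) * (φ⁻¹) ^ (v + b) = (φ⁻¹) ^ (v + a)
      rw [e1, pow_add, ← mul_assoc, inv_pow, mul_inv_cancel, one_mul]
    have c1 := h6 E M w.1 hna p (b - a) hp ε hε0 hε1 hpε ((φ ^ (b - a) : E ≃ₐ[ℚ] E) : E ≃+* E)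
      (fun x => g1 x) (fun x hx => g2 x hx) (f.map ((t b : E ≃ₐ[ℚ] E) : E →+* E))
      (Orb E M β (t b)) (Orb E M β (t a)) (hf (t b) _ fun x => rfl) (by
        rw [Polynomial.map_map (f := ((t b : E ≃ₐ[ℚ] E) : E →+* E))]
        refine hf (t a) _ fun x => ?_
        rw [← hgrp]
        rfl) z hz
    have c2 := h7 M w.1 hna p hp hw δ v a hδ0 (by
      rw [hδ]
      push_cast
      rw [mul_one_div_cancel (pow_ne_zero _ hp0.ne')]) (z ^ (p ^ (b - a))) (Orb E M β (t a)) c1
    have c3 : (z ^ (p ^ (b - a))) ^ (p ^ (v + a)) = z ^ (p ^ (v + b)) := by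
      rw [← pow_mul, ← pow_add]
      congr 2
      omega
    rw [c3] at c2
    exact c2
  have hmain := hPX XX (fun _ => (D : ℝ) * (((s : ℝ) ^ 3 - s) / 3)) hloc
  rw [← Finset.sum_mul, hPs] at hmain
  have hXc : XX.card = s * D := by
    rw [hXX, Finset.card_biUnion (fun a ha b hb hab => by
      rcases lt_or_gt_of_ne hab with h | h
      · exact hYd a (mem_range.1 ha) b (mem_range.1 hb) h
      · exact (hYd b (mem_range.1 hb) a (mem_range.1 ha) h).symm)]
    rw [Finset.sum_congr rfl fun a ha => hYc a (mem_range.1 ha)]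
    simp
  have hXh : ∑ x ∈ XX, logHeight₁ x ≤ (D : ℝ) * ((p : ℝ) ^ (v + s) * logHeight₁ β) := by
    have c1 : ∑ x ∈ XX, logHeight₁ x =
        ∑ a ∈ range s, (D : ℝ) * (((p ^ (v + a) : ℕ) : ℝ) * logHeight₁ β) := by
      rw [hXX, Finset.sum_biUnion (fun a ha b hb hab => by
        have ha' : a < s := by simpa using ha
        have hb' : b < s := by simpa using hb
        rcases lt_or_gt_of_ne hab with h | h
        · exact hYd a ha' b hb' h
        · exact (hYd b hb' a ha' h).symm)]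
      refine Finset.sum_congr rfl fun a ha => ?_
      rw [Finset.sum_congr rfl fun x hx => hYh a x hx, Finset.sum_const, hYc a (mem_range.1 ha),
        nsmul_eq_mul]
    rw [c1, ← Finset.mul_sum, ← Finset.sum_mul]
    have c2 : (∑ a ∈ range s, ((p ^ (v + a) : ℕ) : ℝ)) ≤ (p : ℝ) ^ (v + s) := by
      have := sum_pow_le p v s hp.two_le
      exact_mod_cast this
    exact mul_le_mul_of_nonneg_left (mul_le_mul_of_nonneg_right c2 hH) (Nat.cast_nonneg _)
  rw [hXc] at hmain
  have hs0 : (0 : ℝ) < s := by exact_mod_cast hs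
  have hD0 : (0 : ℝ) < D := by exact_mod_cast hD1
  have hd0 : (0 : ℝ) < d := by exact_mod_cast hd
  have hDdr : (D : ℝ) ≤ d := by exact_mod_cast hDd
  push_cast at hmain
  set R : ℝ := ((Module.finrank ℚ M : ℕ) : ℝ) with hRd
  set h : ℝ := logHeight₁ β with hhd
  set q : ℝ := (p : ℝ) ^ (v + s) with hq
  have hq0 : 0 ≤ q := by positivity
  have e1 : R * Real.log p * ((D : ℝ) * (((s : ℝ) ^ 3 - s) / 3)) ≤
      R * (2 * (s * D) * Real.log (s * D)) + 2 * (s * D) * (D * (q * h)) := by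
    refine hmain.trans ?_
    have := mul_le_mul_of_nonneg_left hXh (by positivity : (0 : ℝ) ≤ 2 * (s * D))
    linarith
  have e2 : (R * (s * D)) * (Real.log p * ((s : ℝ) ^ 2 - 1) / 3) ≤
      (R * (s * D)) * (2 * Real.log (s * D) + 2 * D * q * (h / R)) := by
    have c1 : (R * (s * D)) * (Real.log p * ((s : ℝ) ^ 2 - 1) / 3) =
        R * Real.log p * ((D : ℝ) * (((s : ℝ) ^ 3 - s) / 3)) := by ring
    have c2 : (R * (s * D)) * (2 * Real.log (s * D) + 2 * D * q * (h / R)) =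
        R * (2 * (s * D) * Real.log (s * D)) + 2 * (s * D) * (D * (q * h)) := by
      field_simp
    rw [c1, c2]
    exact e1
  have e3 := le_of_mul_le_mul_left e2 (by positivity : (0 : ℝ) < R * (s * D))
  refine e3.trans ?_
  have e4 : Real.log (s * D) ≤ Real.log (s * d) :=
    Real.log_le_log (by positivity) (mul_le_mul_of_nonneg_left hDdr hs0.le)
  have e5 : 2 * (D : ℝ) * q * (h / R) ≤ 2 * d * q * (h / R) := by
    have : 0 ≤ h / R := div_nonneg hH hR.le
    gcongr
  linarith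

end Pool.Agent.H95.RQ
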