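import Pool.Agent.H95.RQ.Targets1

/-!
# Artin reciprocity: definitions (number fields)
-/

set_option autoImplicit false

open NumberField NumberField.InfinitePlace IsDedekindDomain

namespace Pool.Agent.H95.RQ

open Pool.Agent.H28.RC

section One

variable {K : Type} [Field K] [NumberField K]

/-- the (nonzero) ideals prime to `m` -/
def IM (m : Ideal (𝓞 K)) : Submonoid (Ideal (𝓞 K)) where
  carrier := {I | I ≠ ⊥ ∧ I ⊔ m = ⊤}
  one_mem' := ⟨by simp [Ideal.one_eq_top], by simp [Ideal.one_eq_top]⟩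
  mul_mem' := by
    rintro a b ⟨h1, h2⟩ ⟨h3, h4⟩
    refine ⟨mul_ne_zero h1 h3, ?_⟩
    rw [← Ideal.isCoprime_iff_sup_eq] at h2 h4 ⊢
    exact h2.mul_left h4

/-- ray class characters modulo `m` (with all real places) -/
def Ray {m : Ideal (𝓞 K)} (χ : IM m →* ℂˣ) : Prop :=
  ∀ (a : 𝓞 K) (h : Ideal.span {a} ∈ IM m), a - 1 ∈ m → (∀ v : RP K, 0 < re v (a : K)) →
    χ ⟨_, h⟩ = 1

/-- `x ≡ 1` modulo `P ^ (k + 1)` -/
def Uk (P : HeightOneSpectrum (𝓞 K)) (k : ℕ) : Subgroup Kˣ where
  carrier := {x | P.valuation K ((x : K) - 1) ≤ WithZero.exp (-(k + 1 : ℤ))}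
  one_mem' := by simp
  mul_mem' := by
    intro a b ha hb
    simp only [Set.mem_setOf_eq] at ha hb ⊢
    have h1 : (WithZero.exp (-(k + 1 : ℤ))) < 1 := by
      rw [← WithZero.exp_zero, WithZero.exp_lt_exp]; omega
    have h2 : P.valuation K (a : K) = 1 := by
      have := Valuation.map_one_add_of_lt (v := P.valuation K) (ha.trans_lt h1)
      simpa using this
    have h3 : ((a * b : Kˣ) : K) - 1 = (a : K) * ((b : K) - 1) + ((a : K) - 1) := by
      push_cast; ring
    rw [h3]
    refine (Valuation.map_add _ _ _).trans (max_le ?_ ha)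
    rw [map_mul, h2, one_mul]
    exact hb
  inv_mem' := by
    intro a ha
    simp only [Set.mem_setOf_eq] at ha ⊢
    have h1 : (WithZero.exp (-(k + 1 : ℤ))) < 1 := by
      rw [← WithZero.exp_zero, WithZero.exp_lt_exp]; omega
    have h2 : P.valuation K (a : K) = 1 := by
      have := Valuation.map_one_add_of_lt (v := P.valuation K) (ha.trans_lt h1)
      simpa using this
    have h3 : ((a⁻¹ : Kˣ) : K) - 1 = -((a : K)⁻¹ * ((a : K) - 1)) := by
      rw [Units.val_inv_eq_inv_val]
      field_simp [a.ne_zero]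
      ring
    rw [h3, Valuation.map_neg, map_mul, map_inv₀, h2, inv_one, one_mul]
    exact ha

/-- positive at the real places in `R` -/
def PosR (R : Set (RP K)) : Subgroup Kˣ where
  carrier := {x | ∀ v ∈ R, 0 < re v (x : K)}
  one_mem' := by intro v _; simp [re]
  mul_mem' := by
    intro a b ha hb v hv
    have := mul_pos (ha v hv) (hb v hv)
    simpa [re] using this
  inv_mem' := by
    intro a ha v hv
    have := inv_pos.2 (ha v hv)
    simpa [re] using this

/-- `x ≡ 1` modulo `P ^ (k + 1)` for all `P ∈ T`, totally positive -/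
def UT (T : Finset (HeightOneSpectrum (𝓞 K))) (k : ℕ) : Subgroup Kˣ :=
  (⨅ P ∈ T, Uk P k) ⊓ PosR Set.univ

/-- the `T`-units -/
def UF (T : Finset (HeightOneSpectrum (𝓞 K))) : Subgroup Kˣ where
  carrier := {x | ∀ P ∉ T, P.valuation K (x : K) = 1}
  one_mem' := by intro P _; simp
  mul_mem' := by
    intro a b ha hb P hP
    simp [ha P hP, hb P hP]
  inv_mem' := by
    intro a ha P hP
    simp [ha P hP]

/-- the units at the primes in `T` -/
def UU (T : Finset (HeightOneSpectrum (𝓞 K))) : Subgroup Kˣ where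
  carrier := {x | ∀ P ∈ T, P.valuation K (x : K) = 1}
  one_mem' := by intro P _; simp
  mul_mem' := by
    intro a b ha hb P hP
    simp [ha P hP, hb P hP]
  inv_mem' := by
    intro a ha P hP
    simp [ha P hP]

/-- the units -/
def U0 (K : Type) [Field K] [NumberField K] : Subgroup Kˣ :=
  (Units.map (algebraMap (𝓞 K) K : 𝓞 K →* K)).range

/-- the ideal classes are generated by the primes in `T` -/
def CG (T : Finset (HeightOneSpectrum (𝓞 K))) : Prop :=
  ∀ I : Ideal (𝓞 K), I ≠ ⊥ → ∃ (J : Ideal (𝓞 K)) (a : 𝓞 K), a ≠ 0 ∧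
    (∀ P : HeightOneSpectrum (𝓞 K), P ∉ T → ¬ J ≤ P.asIdeal) ∧ I * J = Ideal.span {a}

end One

section Two

variable (F E : Type) [Field F] [NumberField F] [Field E] [NumberField E] [Algebra F E]

/-- the primes of `E` above `P` -/
abbrev Ab (P : HeightOneSpectrum (𝓞 F)) : Type :=
  {Q : HeightOneSpectrum (𝓞 E) // Q.asIdeal.under (𝓞 F) = P.asIdeal}

/-- the local degree -/
noncomputable def nP (P : HeightOneSpectrum (𝓞 F)) : ℕ :=
  Module.finrank F E / Nat.card (Ab F E P)

/-- the number of ramified infinite places -/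
noncomputable def rI : ℕ := Nat.card {v : InfinitePlace F // ¬ v.IsUnramifiedIn E}

/-- the norm group -/
noncomputable def NN : Subgroup Fˣ := (Units.map (Algebra.norm F : E →* F)).range

variable {F E}

/-- an automorphism acting on the units of the field -/
def us (σ : E ≃ₐ[F] E) : Eˣ →* Eˣ := Units.map (σ : E →* E)

/-- an automorphism acting on the primes -/
noncomputable def mp (σ : E ≃ₐ[F] E) : Equiv.Perm (HeightOneSpectrum (𝓞 E)) :=
  HeightOneSpectrum.equivOfRingEquiv (MulSemiringAction.toRingEquiv (E ≃ₐ[F] E) (𝓞 E) σ)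

variable (E)

/-- `Q` lies above a prime in `T` -/
def AbT (T : Finset (HeightOneSpectrum (𝓞 F))) (Q : HeightOneSpectrum (𝓞 E)) : Prop :=
  ∃ P ∈ T, Q.asIdeal.under (𝓞 F) = P.asIdeal

/-- the `T`-units of `E` -/
def UE (T : Finset (HeightOneSpectrum (𝓞 F))) : Subgroup Eˣ where
  carrier := {x | ∀ Q : HeightOneSpectrum (𝓞 E), ¬ AbT E T Q → Q.valuation E (x : E) = 1}
  one_mem' := by intro P _; simp
  mul_mem' := by
    intro a b ha hb P hP
    simp [ha P hP, hb P hP]
  inv_mem' := by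
    intro a ha P hP
    simp [ha P hP]

/-- the units at `P` -/
def UP (P : HeightOneSpectrum (𝓞 F)) : Subgroup Eˣ where
  carrier := {x | ∀ Q : Ab F E P, Q.1.valuation E (x : E) = 1}
  one_mem' := by intro P; simp
  mul_mem' := by
    intro a b ha hb P
    simp [ha P, hb P]
  inv_mem' := by
    intro a ha P
    simp [ha P]

/-- no ramification outside `T` -/
def NR (T : Finset (HeightOneSpectrum (𝓞 F))) : Prop :=
  ∀ (P : HeightOneSpectrum (𝓞 F)) (Q : Ab F E P), P ∉ T → ∀ x : F,
    Q.1.valuation E (algebraMap F E x) = P.valuation F x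

/-- the ideal classes of `E` are generated by the primes above `T` -/
def CGE (T : Finset (HeightOneSpectrum (𝓞 F))) : Prop :=
  ∀ I : Ideal (𝓞 E), I ≠ ⊥ → ∃ (J : Ideal (𝓞 E)) (a : 𝓞 E), a ≠ 0 ∧
    (∀ Q : HeightOneSpectrum (𝓞 E), ¬ AbT E T Q → ¬ J ≤ Q.asIdeal) ∧ I * J = Ideal.span {a}

variable {E}

/-- the coordinates of `x` in the normal basis are divisible by `P ^ j` -/
def InL [IsGalois F E] (P : HeightOneSpectrum (𝓞 F)) (j : ℤ) (x : E) : Prop :=
  ∀ τ, P.valuation F ((IsGalois.normalBasis F E).repr x τ) ≤ WithZero.exp (-j)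

variable (E)

/-- the group `1 + P ^ j Λ` (for large `j`) -/
def VV [IsGalois F E] (P : HeightOneSpectrum (𝓞 F)) (j : ℤ) : Subgroup Eˣ :=
  Subgroup.closure {x | InL P j ((x : E) - 1)}

variable {E}

/-- the inertia group of `Q` is trivial -/
def TI (F : Type) [Field F] [NumberField F] [Algebra F E] (Q : Ideal (𝓞 E)) : Prop :=
  ∀ g : E ≃ₐ[F] E, (∀ x : 𝓞 E, g • x - x ∈ Q) → g = 1

/-- `φ` is a Frobenius element at `Q` over `F` -/
def Frb (Q : Ideal (𝓞 E)) (φ : E ≃ₐ[F] E) : Prop :=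
  ∀ x : 𝓞 E, φ • x - x ^ (Ideal.absNorm (Q.under (𝓞 F))) ∈ Q

end Two

end Pool.Agent.H95.RQ
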