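import Pool.Agent.H28.RC.Targets2

/-!
# Artin reciprocity and Brauer induction: targets, part 1 (finite groups, Herbrand quotients)
-/

set_option autoImplicit false

namespace Pool.Agent.H95.RQ

open Pool.Agent.H28.RC

/-! ### Brauer induction -/

open scoped Classical in
/-- the function on `G` induced from a function on `H` -/
noncomputable def indf {G : Type} [Group G] (H : Subgroup G) (f : H → ℂ) (g : G) : ℂ :=
  ∑ᶠ x : G ⧸ H, if h : x.out⁻¹ * g * x.out ∈ H then f ⟨_, h⟩ else 0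

/-- the group generated by the monomial characters -/
def Mo (G : Type) [Group G] : AddSubgroup (G → ℂ) :=
  AddSubgroup.closure {f | ∃ (H : Subgroup G) (lam : H →* ℂˣ), f = indc H lam}

/-- the number of fixed points on `G / H` -/
noncomputable def pcz {G : Type} [Group G] (H : Subgroup G) (g : G) : ℤ :=
  (Nat.card {x : G ⧸ H // g • x = x} : ℤ)

/-- cyclic by `p`-group -/
def HE (p : ℕ) (G : Type) [Group G] : Prop :=
  ∃ (C : Subgroup G) (_ : C.Normal), IsCyclic C ∧ IsPGroup p (G ⧸ C)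

/-- (TRA) transitivity of induction. -/
def T_TRA : Prop :=
  ∀ (G : Type) [Group G] [Finite G] (H : Subgroup G) (f : H → ℂ), f ∈ Mo H → indf H f ∈ Mo G

/-- (CLI) Clifford. -/
def T_CLI : Prop :=
  ∀ (G : Type) [Group G] [Finite G] (V : Type) [AddCommGroup V] [Module ℂ V]
    [FiniteDimensional ℂ V] (ρ : Representation ℂ G V) (A : Subgroup G), A.Normal →
    (∀ W : Submodule ℂ V, (∀ g, ∀ x ∈ W, ρ g x ∈ W) → W = ⊥ ∨ W = ⊤) →
    (∀ a ∈ A, ∀ b ∈ A, ρ a * ρ b = ρ b * ρ a) →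
    (∃ a ∈ A, ∀ c : ℂ, ρ a ≠ c • (1 : Module.End ℂ V)) →
    ∃ (H : Subgroup G) (W : Submodule ℂ V) (τ : Representation ℂ H W), H ≠ ⊤ ∧
      ∀ g, LinearMap.trace ℂ V (ρ g) = indf H (fun h => LinearMap.trace ℂ W (τ h)) g

/-- (RED) Maschke. -/
def T_RED : Prop :=
  ∀ (G : Type) [Group G] [Finite G] (V : Type) [AddCommGroup V] [Module ℂ V]
    [FiniteDimensional ℂ V] (ρ : Representation ℂ G V) (W : Submodule ℂ V),
    (∀ g, ∀ x ∈ W, ρ g x ∈ W) → W ≠ ⊥ → W ≠ ⊤ →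
    ∃ (W1 W2 : Submodule ℂ V) (τ1 : Representation ℂ G W1) (τ2 : Representation ℂ G W2),
      Module.finrank ℂ W1 < Module.finrank ℂ V ∧ Module.finrank ℂ W2 < Module.finrank ℂ V ∧
      ∀ g, LinearMap.trace ℂ V (ρ g) =
        LinearMap.trace ℂ W1 (τ1 g) + LinearMap.trace ℂ W2 (τ2 g)

/-- (SSP) cyclic-by-`p` groups: subgroups, chief series. -/
def T_SSP : Prop :=
  ∀ (p : ℕ) (G : Type) [Group G] [Finite G], p.Prime → HE p G →
    (∀ H : Subgroup G, HE p H) ∧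
    ∀ Z : Subgroup G, Z.Normal → Z ≠ ⊤ → ∃ A : Subgroup G, A.Normal ∧ Z < A ∧
      ∃ a : G, ∀ x ∈ A, ∃ k : ℤ, x * a ^ (-k) ∈ Z

/-- (MON) cyclic-by-`p` groups are monomial. -/
def T_MON : Prop :=
  ∀ (p : ℕ) (G : Type) [Group G] [Finite G], p.Prime → HE p G →
    ∀ (V : Type) [AddCommGroup V] [Module ℂ V] [FiniteDimensional ℂ V]
      (ρ : Representation ℂ G V), (fun g => LinearMap.trace ℂ V (ρ g)) ∈ Mo G

/-- (BAN) a lemma of Banaschewski. -/
def T_BAN : Prop :=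
  ∀ (X : Type) [Finite X] (R : AddSubgroup (X → ℤ)), (∀ f ∈ R, ∀ g ∈ R, f * g ∈ R) →
    (1 : X → ℤ) ∉ R → ∃ (x : X) (p : ℕ), p.Prime ∧ ∀ f ∈ R, (p : ℤ) ∣ f x

/-- (PCM) products of permutation characters. -/
def T_PCM : Prop :=
  ∀ (G : Type) [Group G] [Finite G] (H K : Subgroup G),
    ∃ (N : ℕ) (L : Fin N → Subgroup G) (x : Fin N → G),
      (∀ i, ∀ g ∈ L i, (x i)⁻¹ * g * x i ∈ H) ∧ ∀ g, pcz H g * pcz K g = ∑ i, pcz (L i) g

/-- (SYL) a cyclic-by-`p` subgroup with a number of fixed points prime to `p`. -/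
def T_SYL : Prop :=
  ∀ (G : Type) [Group G] [Finite G] (x : G) (p : ℕ), p.Prime →
    ∃ H : Subgroup G, HE p H ∧ ¬ (p : ℤ) ∣ pcz H x

/-- (SOL) Solomon's induction theorem. -/
def T_SOL : Prop :=
  ∀ (G : Type) [Group G] [Finite G],
    ∃ (N : ℕ) (H : Fin N → Subgroup G) (n : Fin N → ℤ),
      (∀ i, ∃ p : ℕ, p.Prime ∧ HE p (H i)) ∧ ∀ g, ∑ i, n i * pcz (H i) g = 1

/-- (PRJ) the projection formula. -/
def T_PRJ : Prop :=
  ∀ (G : Type) [Group G] [Finite G] (H : Subgroup G) (V : Type) [AddCommGroup V] [Module ℂ V]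
    [FiniteDimensional ℂ V] (ρ : Representation ℂ G V) (g : G),
    LinearMap.trace ℂ V (ρ g) * (pcz H g : ℂ) =
      indf H (fun h => LinearMap.trace ℂ V (ρ (h : G))) g

/-! ### Herbrand quotients -/

section HQ

variable {A : Type} [CommGroup A]

/-- `a ↦ s a / a` -/
def dl (s : A →* A) : A →* A where
  toFun a := s a / a
  map_one' := by simp
  map_mul' a b := by rw [map_mul, mul_div_mul_comm]

/-- `a ↦ ∏_{i < n} s^i a` -/
def nm (s : A →* A) (n : ℕ) : A →* A where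
  toFun a := ∏ i ∈ Finset.range n, s^[i] a
  map_one' := Finset.prod_eq_one fun i _ => iterate_map_one s i
  map_mul' a b := by
    rw [← Finset.prod_mul_distrib]
    exact Finset.prod_congr rfl fun i _ => iterate_map_mul s i a b

/-- the order of `H⁰` of the subgroup `B` (`0` if infinite) -/
noncomputable def h0 (s : A →* A) (n : ℕ) (B : Subgroup A) : ℕ :=
  (B.map (nm s n)).relIndex (B ⊓ (dl s).ker)

/-- the order of `H¹` of the subgroup `B` (`0` if infinite) -/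
noncomputable def h1 (s : A →* A) (n : ℕ) (B : Subgroup A) : ℕ :=
  (B.map (dl s)).relIndex (B ⊓ (nm s n).ker)

end HQ

/-- (HQI) the Herbrand quotient does not change if one passes to a subgroup of finite index. -/
def T_HQI : Prop :=
  ∀ (A : Type) [CommGroup A] (s : A →* A) (n : ℕ) (B C : Subgroup A), 1 ≤ n →
    (∀ a, s^[n] a = a) → (∀ b ∈ B, s b ∈ B) → (∀ c ∈ C, s c ∈ C) → B ≤ C →
    B.relIndex C ≠ 0 → h0 s n B ≠ 0 → h1 s n B ≠ 0 →
    h0 s n C ≠ 0 ∧ h1 s n C ≠ 0 ∧ h0 s n C * h1 s n B = h0 s n B * h1 s n C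

/-- (HQM) equivariant injective maps. -/
def T_HQM : Prop :=
  ∀ (A A' : Type) [CommGroup A] [CommGroup A'] (s : A →* A) (s' : A' →* A') (n : ℕ)
    (Φ : A →* A') (B : Subgroup A), Function.Injective Φ → (∀ a, Φ (s a) = s' (Φ a)) →
    h0 s' n (B.map Φ) = h0 s n B ∧ h1 s' n (B.map Φ) = h1 s n B

/-- (HQP) products; the trivial module. -/
def T_HQP : Prop :=
  (∀ (A A' : Type) [CommGroup A] [CommGroup A'] (s : A →* A) (s' : A' →* A') (n : ℕ)
    (B : Subgroup A) (B' : Subgroup A'),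
    h0 (s.prodMap s') n (B.prod B') = h0 s n B * h0 s' n B' ∧
    h1 (s.prodMap s') n (B.prod B') = h1 s n B * h1 s' n B') ∧
  ∀ n : ℕ, 1 ≤ n → h0 (MonoidHom.id (Multiplicative ℤ)) n ⊤ = n ∧
    h1 (MonoidHom.id (Multiplicative ℤ)) n ⊤ = 1

/-- the permutation module of a permutation `π` of `X` -/
def pm {X : Type} (π : Equiv.Perm X) : (X → Multiplicative ℤ) →* (X → Multiplicative ℤ) where
  toFun a x := a (π.symm x)
  map_one' := rfl
  map_mul' _ _ := rfl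

/-- (HQX) permutation modules. -/
def T_HQX : Prop :=
  ∀ (X Y : Type) [Finite X] [Fintype Y] (π : Equiv.Perm X) (p : X → Y) (n : ℕ), 1 ≤ n →
    π ^ n = 1 → Function.Surjective p →
    (∀ x x' : X, p x = p x' ↔ ∃ i : ℕ, (π ^ i) x = x') →
    h0 (pm π) n ⊤ = ∏ y, n / Nat.card {x // p x = y} ∧ h1 (pm π) n ⊤ = 1

/-- (EQS) equivariant choice. -/
def T_EQS : Prop :=
  ∀ (X A : Type) [CommGroup A] (π : Equiv.Perm X) (s : A →* A) (n : ℕ) (R : X → A → Prop),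
    1 ≤ n → π ^ n = 1 → (∀ a, s^[n] a = a) → (∀ x a, R x a → R (π x) (s a)) →
    (∀ x a b, R x a → R x b → R x (a * b)) → (∀ x, ∃ a, R x a) →
    ∃ u : X → A, (∀ x, u (π x) = s (u x)) ∧ ∀ x, R x (u x)

/-! ### Elementary number theory -/

/-- (ORD) primes for which the order of `a` is a given prime power. -/
def T_ORD : Prop :=
  ∀ (a l s : ℕ), 2 ≤ a → l.Prime → 2 ≤ s → ∃ q : ℕ, q.Prime ∧ orderOf (a : ZMod q) = l ^ s

/-- (QCH) the choice of `q` for the crossing with cyclotomic fields. -/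
def T_QCH : Prop :=
  ∀ (n a b : ℕ), 1 ≤ n → 2 ≤ a → b ≠ 0 → ∃ (q : ℕ) (α τ : (ZMod q)ˣ), 1 ≤ q ∧ q.Coprime b ∧
    q.Coprime a ∧ ((α : (ZMod q)ˣ) : ZMod q) = a ∧ ∀ i j : ℕ, τ ^ i * α ^ j = 1 → n ∣ i ∧ n ∣ j

end Pool.Agent.H95.RQ
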