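import Pool.Agent.H95.RQ.Defs2

/-!
# Artin reciprocity: targets, part 2 (the first inequality)
-/

set_option autoImplicit false

open NumberField NumberField.InfinitePlace IsDedekindDomain

namespace Pool.Agent.H95.RQ

open Pool.Agent.H28.RC

/-! ### Herbrand quotients of quotients -/

section HQ

variable {A : Type} [CommGroup A]

/-- the order of `H⁰(A / V)` -/
noncomputable def h0q (s : A →* A) (n : ℕ) (V : Subgroup A) : ℕ :=
  ((nm s n).range ⊔ V).relIndex (V.comap (dl s))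

/-- the order of `H¹(A / V)` -/
noncomputable def h1q (s : A →* A) (n : ℕ) (V : Subgroup A) : ℕ :=
  ((dl s).range ⊔ V).relIndex (V.comap (nm s n))

end HQ

/-- (HQQ) a submodule of finite index in the quotient `A / V`. -/
def T_HQQ : Prop :=
  ∀ (A B : Type) [CommGroup A] [CommGroup B] (s : A →* A) (s' : B →* B) (n : ℕ)
    (V : Subgroup A) (Φ : B →* A), 1 ≤ n → (∀ a, s^[n] a = a) → (∀ v ∈ V, s v ∈ V) →
    (∀ b, Φ (s' b) = s (Φ b)) → (∀ b, Φ b ∈ V → b = 1) → (Φ.range ⊔ V).index ≠ 0 →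
    h0 s' n ⊤ ≠ 0 → h1 s' n ⊤ ≠ 0 →
    h0q s n V ≠ 0 ∧ h1q s n V ≠ 0 ∧ h0q s n V * h1 s' n ⊤ = h0 s' n ⊤ * h1q s n V

/-! ### Basic facts -/

/-- (VAL) valuations and the Galois action. -/
def T_VAL : Prop :=
  ∀ (F E : Type) [Field F] [NumberField F] [Field E] [NumberField E] [Algebra F E] [IsGalois F E],
    (∀ (σ : E ≃ₐ[F] E) (Q : HeightOneSpectrum (𝓞 E)) (x : E),
      (mp σ Q).valuation E (σ x) = Q.valuation E x) ∧
    (∀ (σ : E ≃ₐ[F] E) (Q : HeightOneSpectrum (𝓞 E)),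
      (mp σ Q).asIdeal.under (𝓞 F) = Q.asIdeal.under (𝓞 F)) ∧
    (∀ (σ : E ≃ₐ[F] E) (k : ℕ), mp (σ ^ k) = mp σ ^ k) ∧
    (∀ Q Q' : HeightOneSpectrum (𝓞 E), Q.asIdeal.under (𝓞 F) = Q'.asIdeal.under (𝓞 F) →
      ∃ g : E ≃ₐ[F] E, mp g Q = Q') ∧
    (∀ Q : HeightOneSpectrum (𝓞 E), ∃ P : HeightOneSpectrum (𝓞 F),
      Q.asIdeal.under (𝓞 F) = P.asIdeal) ∧
    (∀ P : HeightOneSpectrum (𝓞 F), Nonempty (Ab F E P) ∧ Finite (Ab F E P) ∧
      Nat.card (Ab F E P) ∣ Module.finrank F E) ∧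
    ∀ (P : HeightOneSpectrum (𝓞 F)) (Q : Ab F E P), ∃ e : ℕ, 1 ≤ e ∧ ∀ x : F,
      Q.1.valuation E (algebraMap F E x) = P.valuation F x ^ e

/-- (NMN) the norm; fixed points. -/
def T_NMN : Prop :=
  ∀ (F E : Type) [Field F] [NumberField F] [Field E] [NumberField E] [Algebra F E] [IsGalois F E]
    (σ : E ≃ₐ[F] E), (∀ g : E ≃ₐ[F] E, g ∈ Subgroup.zpowers σ) →
    σ ^ Module.finrank F E = 1 ∧ (∀ x : Eˣ, (us σ)^[Module.finrank F E] x = x) ∧
    (∀ x : Eˣ, ((nm (us σ) (Module.finrank F E) x : Eˣ) : E) =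
      algebraMap F E (Algebra.norm F (x : E))) ∧
    ∀ x : Eˣ, us σ x = x → ∃ a : Fˣ, (x : E) = algebraMap F E (a : F)

/-! ### Units -/

/-- (UNI) an equivariant family of units. -/
def T_UNI : Prop :=
  ∀ (F E : Type) [Field F] [NumberField F] [Field E] [NumberField E] [Algebra F E]
    (σ : E ≃ₐ[F] E) (n : ℕ), 1 ≤ n → σ ^ n = 1 →
    ∃ u : InfinitePlace E → Eˣ, (∀ w, u w ∈ U0 E) ∧ (∀ w, u (σ • w) = us σ (u w)) ∧
      ∀ w w' : InfinitePlace E, w' ≠ w → w' (u w : E) < 1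

/-- (UIN) the relations between such units. -/
def T_UIN : Prop :=
  ∀ (E : Type) [Field E] [NumberField E] (u : InfinitePlace E → Eˣ), (∀ w, u w ∈ U0 E) →
    (∀ w w' : InfinitePlace E, w' ≠ w → w' (u w : E) < 1) → ∀ a : InfinitePlace E → ℤ,
    ∏ w, u w ^ a w = 1 → ∑ w, a w = 0 → a = 0

/-- (UFI) finite index. -/
def T_UFI : Prop :=
  ∀ (E : Type) [Field E] [NumberField E]
    (Φ : (InfinitePlace E → Multiplicative ℤ) →* Eˣ × Multiplicative ℤ), Function.Injective Φ →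
    Φ.range ≤ (U0 E).prod ⊤ → Φ.range.relIndex ((U0 E).prod ⊤) ≠ 0

/-- (PIW) an equivariant family of elements supported at one prime. -/
def T_PIW : Prop :=
  ∀ (F E : Type) [Field F] [NumberField F] [Field E] [NumberField E] [Algebra F E] [IsGalois F E]
    (σ : E ≃ₐ[F] E) (n : ℕ), 1 ≤ n → σ ^ n = 1 →
    ∃ π : HeightOneSpectrum (𝓞 E) → Eˣ, (∀ Q, π (mp σ Q) = us σ (π Q)) ∧
      ∀ Q : HeightOneSpectrum (𝓞 E), Q.valuation E (π Q : E) < 1 ∧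
        ∀ Q' : HeightOneSpectrum (𝓞 E), Q' ≠ Q → Q'.valuation E (π Q : E) = 1

/-- (SUN) the group of `T`-units contains a permutation module of finite index. -/
def T_SUN : Prop :=
  ∀ (F E : Type) [Field F] [NumberField F] [Field E] [NumberField E] [Algebra F E] [IsGalois F E]
    (σ : E ≃ₐ[F] E) (n : ℕ) (T : Finset (HeightOneSpectrum (𝓞 F))), 1 ≤ n → σ ^ n = 1 →
    ∃ (π : Equiv.Perm (InfinitePlace E ⊕ {Q : HeightOneSpectrum (𝓞 E) // AbT E T Q}))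
      (Φ : ((InfinitePlace E ⊕ {Q : HeightOneSpectrum (𝓞 E) // AbT E T Q}) → Multiplicative ℤ) →*
        Eˣ × Multiplicative ℤ),
      (∀ w, π (Sum.inl w) = Sum.inl (σ • w)) ∧
      (∀ Q, ∃ h, π (Sum.inr Q) = Sum.inr ⟨mp σ Q.1, h⟩) ∧
      Function.Injective Φ ∧ (∀ a, Φ (pm π a) = ((us σ).prodMap (MonoidHom.id _)) (Φ a)) ∧
      Φ.range ≤ (UE E T).prod ⊤ ∧ Φ.range.relIndex ((UE E T).prod ⊤) ≠ 0

/-- (HSU) the Herbrand quotient of the `T`-units. -/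
def T_HSU : Prop :=
  ∀ (F E : Type) [Field F] [NumberField F] [Field E] [NumberField E] [Algebra F E] [IsGalois F E]
    (σ : E ≃ₐ[F] E) (T : Finset (HeightOneSpectrum (𝓞 F))),
    (∀ g : E ≃ₐ[F] E, g ∈ Subgroup.zpowers σ) →
    h0 (us σ) (Module.finrank F E) (UE E T) ≠ 0 ∧ h1 (us σ) (Module.finrank F E) (UE E T) ≠ 0 ∧
    h0 (us σ) (Module.finrank F E) (UE E T) * Module.finrank F E =
      2 ^ rI F E * (∏ P ∈ T, nP F E P) * h1 (us σ) (Module.finrank F E) (UE E T)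

/-- (H1S) Hilbert 90 for the `T`-units. -/
def T_H1S : Prop :=
  ∀ (F E : Type) [Field F] [NumberField F] [Field E] [NumberField E] [Algebra F E] [IsGalois F E]
    (σ : E ≃ₐ[F] E) (T : Finset (HeightOneSpectrum (𝓞 F))),
    (∀ g : E ≃ₐ[F] E, g ∈ Subgroup.zpowers σ) → NR E T → CG T →
    h1 (us σ) (Module.finrank F E) (UE E T) = 1

/-- (EXT) the choice of `T`. -/
def T_EXT : Prop :=
  ∀ (F E : Type) [Field F] [NumberField F] [Field E] [NumberField E] [Algebra F E]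
    (T₀ : Finset (HeightOneSpectrum (𝓞 F))), ∃ T : Finset (HeightOneSpectrum (𝓞 F)),
      T₀ ⊆ T ∧ NR E T ∧ CG T ∧ CGE E T

/-! ### The local norm index -/

/-- (LAM) the lattices `P ^ j Λ`. -/
def T_LAM : Prop :=
  ∀ (F E : Type) [Field F] [NumberField F] [Field E] [NumberField E] [Algebra F E] [IsGalois F E]
    (P : HeightOneSpectrum (𝓞 F)),
    (∀ (j : ℤ) (x y : E), InL P j x → InL P j y → InL P j (x + y)) ∧
    (∀ (j : ℤ) (x : E), InL P j x → InL P j (-x)) ∧ (∀ j : ℤ, InL P j (0 : E)) ∧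
    (∀ (i j : ℤ) (x : E), i ≤ j → InL P j x → InL P i x) ∧
    (∀ (j : ℤ) (g : E ≃ₐ[F] E) (x : E), InL P j x → InL P j (g x)) ∧
    (∃ c : ℤ, 0 ≤ c ∧ ∀ (i j : ℤ) (x y : E), InL P i x → InL P j y →
      InL P (i + j - c) (x * y)) ∧
    (∃ t : ℤ, ∀ (j : ℤ) (a : F), InL P j (algebraMap F E a) ↔
      P.valuation F a ≤ WithZero.exp (-(j + t))) ∧
    ∀ x : E, ∃ j : ℤ, InL P j x

/-- (TRP) traces of elements integral above `P`. -/
def T_TRP : Prop :=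
  ∀ (F E : Type) [Field F] [NumberField F] [Field E] [NumberField E] [Algebra F E]
    (P : HeightOneSpectrum (𝓞 F)) (y : E), (∀ Q : Ab F E P, Q.1.valuation E y ≤ 1) →
    P.valuation F (Algebra.trace F E y) ≤ 1

/-- (LAV) comparison of `P ^ j Λ` with the valuations above `P`. -/
def T_LAV : Prop :=
  ∀ (F E : Type) [Field F] [NumberField F] [Field E] [NumberField E] [Algebra F E] [IsGalois F E]
    (P : HeightOneSpectrum (𝓞 F)),
    (∃ c : ℤ, ∀ (j : ℤ) (x : E), 0 ≤ j → InL P j x → ∀ Q : Ab F E P,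
      Q.1.valuation E x ≤ WithZero.exp (c - j)) ∧
    ∃ c : ℤ, ∀ (a : F) (x : E), a ≠ 0 →
      (∀ Q : Ab F E P, Q.1.valuation E x ≤ Q.1.valuation E (algebraMap F E a)) →
      ∀ τ, P.valuation F ((IsGalois.normalBasis F E).repr x τ) ≤
        P.valuation F a * WithZero.exp c

/-- (VSG) the groups `1 + P ^ j Λ`. -/
def T_VSG : Prop :=
  ∀ (F E : Type) [Field F] [NumberField F] [Field E] [NumberField E] [Algebra F E] [IsGalois F E]
    (P : HeightOneSpectrum (𝓞 F)), ∃ j₀ : ℤ, ∀ j : ℤ, j₀ ≤ j → ∀ x : Eˣ,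
      (x ∈ VV E P j ↔ InL P j ((x : E) - 1))

/-- (VCT) cohomological triviality of the quotients `V_j / V_k`. -/
def T_VCT : Prop :=
  ∀ (F E : Type) [Field F] [NumberField F] [Field E] [NumberField E] [Algebra F E] [IsGalois F E]
    (P : HeightOneSpectrum (𝓞 F)) (σ : E ≃ₐ[F] E),
    (∀ g : E ≃ₐ[F] E, g ∈ Subgroup.zpowers σ) →
    ∃ j₀ : ℤ, ∀ j k : ℤ, j₀ ≤ j → j ≤ k →
      (∀ x ∈ VV E P j, nm (us σ) (Module.finrank F E) x ∈ VV E P k → ∃ y ∈ VV E P j,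
        x * (y / us σ y) ∈ VV E P k) ∧
      ∀ x ∈ VV E P j, us σ x / x ∈ VV E P k → ∃ y ∈ VV E P j,
        x / nm (us σ) (Module.finrank F E) y ∈ VV E P k

/-- (VH0) the fixed points of `E^* / V_j`. -/
def T_VH0 : Prop :=
  ∀ (F E : Type) [Field F] [NumberField F] [Field E] [NumberField E] [Algebra F E] [IsGalois F E]
    (P : HeightOneSpectrum (𝓞 F)) (σ : E ≃ₐ[F] E),
    (∀ g : E ≃ₐ[F] E, g ∈ Subgroup.zpowers σ) →
    ∃ j₀ : ℤ, ∀ j : ℤ, j₀ ≤ j → ∀ x : Eˣ, us σ x / x ∈ VV E P j →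
      ∃ a : Fˣ, x / Units.map (algebraMap F E : F →* E) a ∈ VV E P j

/-- (FUP) finiteness of residue class groups. -/
def T_FUP : Prop :=
  ∀ (K : Type) [Field K] [NumberField K] (T : Finset (HeightOneSpectrum (𝓞 K))) (k : ℕ),
    (⨅ P ∈ T, Uk P k).relIndex (UU T) ≠ 0

/-- (UPF) `V_j` has finite index in the group of units at `P`. -/
def T_UPF : Prop :=
  ∀ (F E : Type) [Field F] [NumberField F] [Field E] [NumberField E] [Algebra F E] [IsGalois F E]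
    (P : HeightOneSpectrum (𝓞 F)), ∃ j₀ : ℤ, ∀ j : ℤ, j₀ ≤ j →
      VV E P j ≤ UP E P ∧ (VV E P j).relIndex (UP E P) ≠ 0

/-- (VQH) the Herbrand quotient of `E^* / V_j`. -/
def T_VQH : Prop :=
  ∀ (F E : Type) [Field F] [NumberField F] [Field E] [NumberField E] [Algebra F E] [IsGalois F E]
    (P : HeightOneSpectrum (𝓞 F)) (σ : E ≃ₐ[F] E),
    (∀ g : E ≃ₐ[F] E, g ∈ Subgroup.zpowers σ) →
    ∃ j₀ : ℤ, ∀ j : ℤ, j₀ ≤ j → h1q (us σ) (Module.finrank F E) (VV E P j) ≠ 0 ∧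
      h0q (us σ) (Module.finrank F E) (VV E P j) =
        nP F E P * h1q (us σ) (Module.finrank F E) (VV E P j)

/-- (LOC) the local norm index. -/
def T_LOC : Prop :=
  ∀ (F E : Type) [Field F] [NumberField F] [Field E] [NumberField E] [Algebra F E] [IsGalois F E]
    (P : HeightOneSpectrum (𝓞 F)) (σ : E ≃ₐ[F] E),
    (∀ g : E ≃ₐ[F] E, g ∈ Subgroup.zpowers σ) →
    ∃ k₀ : ℕ, ∀ k : ℕ, k₀ ≤ k → (NN F E ⊔ Uk P k).index ≠ 0 ∧ nP F E P ≤ (NN F E ⊔ Uk P k).index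

/-! ### The global norm index -/

/-- (WAS) weak approximation. -/
def T_WAS : Prop :=
  ∀ (K : Type) [Field K] [NumberField K] (T : Finset (HeightOneSpectrum (𝓞 K))) (k : ℕ)
    (g : HeightOneSpectrum (𝓞 K) → Kˣ) (S : Set (RP K)), ∃ f : Kˣ, (∀ P ∈ T, f / g P ∈ Uk P k) ∧
      (∀ v ∈ S, re v (f : K) < 0) ∧ ∀ v ∉ S, 0 < re v (f : K)

/-- (WAP) the index of an intersection. -/
def T_WAP : Prop :=
  ∀ (K : Type) [Field K] [NumberField K] (T : Finset (HeightOneSpectrum (𝓞 K))) (k : ℕ)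
    (B : HeightOneSpectrum (𝓞 K) → Subgroup Kˣ) (R : Set (RP K)), (∀ P ∈ T, Uk P k ≤ B P) →
    (∀ P ∈ T, (B P).index ≠ 0) →
    ((⨅ P ∈ T, B P) ⊓ PosR R).index = (∏ P ∈ T, (B P).index) * 2 ^ Nat.card R

/-- (FIX) finiteness of the index of the `n`-th powers. -/
def T_FIX : Prop :=
  ∀ (K : Type) [Field K] [NumberField K] (T : Finset (HeightOneSpectrum (𝓞 K))) (k n : ℕ),
    1 ≤ n → ((powMonoidHom n : Kˣ →* Kˣ).range ⊔ UT T k).index ≠ 0

/-- (NPO) norms are positive at the ramified real places. -/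
def T_NPO : Prop :=
  ∀ (F E : Type) [Field F] [NumberField F] [Field E] [NumberField E] [Algebra F E] [IsGalois F E],
    (∀ v : RP F, ¬ v.1.IsUnramifiedIn E → ∀ x ∈ NN F E, 0 < re v (x : F)) ∧
    Nat.card {v : RP F | ¬ v.1.IsUnramifiedIn E} = rI F E

/-- (UFE) the `T`-units of `F` and of `E`. -/
def T_UFE : Prop :=
  ∀ (F E : Type) [Field F] [NumberField F] [Field E] [NumberField E] [Algebra F E] [IsGalois F E]
    (σ : E ≃ₐ[F] E) (T : Finset (HeightOneSpectrum (𝓞 F))),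
    (∀ g : E ≃ₐ[F] E, g ∈ Subgroup.zpowers σ) →
    (UE E T).map (Units.map (Algebra.norm F : E →* F)) ≤ UF T ∧
    h0 (us σ) (Module.finrank F E) (UE E T) =
      ((UE E T).map (Units.map (Algebra.norm F : E →* F))).relIndex (UF T)

/-- (GLO) the global norm index. -/
def T_GLO : Prop :=
  ∀ (F E : Type) [Field F] [NumberField F] [Field E] [NumberField E] [Algebra F E] [IsGalois F E]
    (σ : E ≃ₐ[F] E) (T : Finset (HeightOneSpectrum (𝓞 F))),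
    (∀ g : E ≃ₐ[F] E, g ∈ Subgroup.zpowers σ) → NR E T → CG T →
    ∃ k₀ : ℕ, ∀ k : ℕ, k₀ ≤ k → (UF T ⊔ NN F E ⊔ UT T k).index ≠ 0 ∧
      Module.finrank F E ≤ (UF T ⊔ NN F E ⊔ UT T k).index

/-- (DUA) characters of a finite quotient. -/
def T_DUA : Prop :=
  ∀ (A : Type) [CommGroup A] (C : Subgroup A), C.index ≠ 0 →
    ∃ X : Finset (A →* ℂˣ), X.card = C.index ∧ ∀ κ ∈ X, ∀ c ∈ C, κ c = 1

/-- (FSX) from characters of `F^*` to ray class characters. -/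
def T_FSX : Prop :=
  ∀ (F E : Type) [Field F] [NumberField F] [Field E] [NumberField E] [Algebra F E] [IsGalois F E]
    (T : Finset (HeightOneSpectrum (𝓞 F))) (k : ℕ) (m : Ideal (𝓞 F)), CG T → CGE E T →
    m = ∏ P ∈ T, P.asIdeal ^ (k + 1) →
    ∃ Θ : {κ : Fˣ →* ℂˣ // ∀ x ∈ UF T ⊔ NN F E ⊔ UT T k, κ x = 1} → (IM m →* ℂˣ),
      Function.Injective Θ ∧ ∀ κ, Ray (Θ κ) ∧ ∀ (J : Ideal (𝓞 E)) (h : Ideal.relNorm (𝓞 F) J ∈ IM m),
        Θ κ ⟨_, h⟩ = 1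

/-- (FST) the first inequality. -/
def T_FST : Prop :=
  ∀ (F E : Type) [Field F] [NumberField F] [Field E] [NumberField E] [Algebra F E] [IsGalois F E]
    (σ : E ≃ₐ[F] E), (∀ g : E ≃ₐ[F] E, g ∈ Subgroup.zpowers σ) →
    ∀ m₀ : Ideal (𝓞 F), m₀ ≠ ⊥ → ∃ m : Ideal (𝓞 F), m ≤ m₀ ∧ m ≠ ⊥ ∧
      ∃ X : Finset (IM m →* ℂˣ), Module.finrank F E ≤ X.card ∧ ∀ χ ∈ X, Ray χ ∧
        ∀ (J : Ideal (𝓞 E)) (h : Ideal.relNorm (𝓞 F) J ∈ IM m), χ ⟨_, h⟩ = 1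

end Pool.Agent.H95.RQ
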