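import Pool.Agent.H95.RQ.Targets2
import Pool.Agent.H28.RC.Targets3

/-!
# Artin reciprocity: targets, part 3 (the first inequality in the form of helper28's interface)
-/

set_option autoImplicit false

open NumberField NumberField.InfinitePlace IsDedekindDomain

namespace Pool.Agent.H95.RQ

open Pool.Agent.H28.RC

open scoped Classical in
/-- extension by zero of a character of the ideals prime to `m` -/
noncomputable def xt {K : Type} [Field K] [NumberField K] {m : Ideal (𝓞 K)} (χ : IM m →* ℂˣ)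
    (I : Ideal (𝓞 K)) : ℂ :=
  if h : I ∈ IM m then ((χ ⟨I, h⟩ : ℂˣ) : ℂ) else 0

/-- (RCG) the ray class group is a torsion group of bounded exponent. -/
def T_RCG : Prop :=
  ∀ (K : Type) [Field K] [NumberField K] (m : Ideal (𝓞 K)), m ≠ ⊥ → ∃ h : ℕ, 1 ≤ h ∧
    ∀ I ∈ IM m, ∃ a : 𝓞 K, a - 1 ∈ m ∧ (∀ v : RP K, 0 < re v (a : K)) ∧ I ^ h = Ideal.span {a}

/-- (PCX) characters of the ideals prime to `m` as functions on all ideals. -/
def T_PCX : Prop :=
  ∀ (K : Type) [Field K] [NumberField K] (m : Ideal (𝓞 K)), m ≠ ⊥ →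
    (∀ χ : IM m →* ℂˣ, Ray χ → PC m (xt χ)) ∧ Function.Injective (xt (m := m))

/-- (URX) almost all primes are unramified. -/
def T_URX : Prop :=
  ∀ (F E : Type) [Field F] [NumberField F] [Field E] [NumberField E] [Algebra F E] [IsGalois F E],
    ∃ m : Ideal (𝓞 F), m ≠ ⊥ ∧ UR E m

/-- (FIB) the first inequality. -/
def T_FIB : Prop := Pool.Agent.H28.RC.T_FIQ

end Pool.Agent.H95.RQ
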